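import Pool.Agent.Lib.MP_dc7d7b_co.TG.AL
import Pool.Agent.Lib.MP_dc7d7b_co.TF.Br2

set_option autoImplicit false

/-!
# Maximum degree five and six
-/

namespace Pool.Agent.MP_dc7d7b.TG

open Finset

theorem dg_le {V : Type} [Fintype V] (G : SimpleGraph V) [DecidableRel G.Adj] {D : ℕ} (hdeg : ∀ v : V, G.degree v ≤ D)
    (T : Finset V) (v : V) : TF.dg G T v ≤ D := by
  unfold TF.dg
  refine le_trans (Finset.card_le_card ?_) (hdeg v)
  intro w hw
  simp only [Finset.mem_filter] at hw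
  simpa using hw.2

theorem no_clique {V : Type} (G : SimpleGraph V) {n : ℕ} (hK : G.CliqueFree n) (S : Finset V) (hS : S.card = n) :
    ∃ x ∈ S, ∃ y ∈ S, x ≠ y ∧ ¬ G.Adj x y := by
  by_contra hall
  push Not at hall
  exact hK S ⟨fun x hx y hy hxy => hall x hx y hy hxy, hS⟩

theorem degree_five (V : Type) [Fintype V] (G : SimpleGraph V) [DecidableRel G.Adj] (hdeg : ∀ v : V, G.degree v ≤ 5)
    (hK : G.CliqueFree 6) (H : SimpleGraph (V × Fin 6)) (hH : Cover G H) :
    ∃ f : Fin 6 → V → Fin 6, (∀ v : V, Function.Injective (fun i : Fin 6 => f i v)) ∧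
      ∀ (i : Fin 6) (u v : V), ¬ H.Adj (u, f i u) (v, f i v) := by
  classical
  obtain ⟨f, hf⟩ := pack_all hH (dg_le G hdeg) (no_clique G hK) univ
  exact ⟨fun i v => f v i, fun v => (f v).injective, fun i u v => hf i u (mem_univ _) v (mem_univ _)⟩

theorem degree_six (V : Type) [Fintype V] (G : SimpleGraph V) [DecidableRel G.Adj] (hdeg : ∀ v : V, G.degree v ≤ 6)
    (hK : G.CliqueFree 7) (H : SimpleGraph (V × Fin 8)) (hH : Cover G H) :
    ∃ f : Fin 8 → V → Fin 8, (∀ v : V, Function.Injective (fun i : Fin 8 => f i v)) ∧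
      ∀ (i : Fin 8) (u v : V), ¬ H.Adj (u, f i u) (v, f i v) := by
  classical
  obtain ⟨f, hf⟩ := TF.pack_all hH (dg_le G hdeg) (no_clique G hK) univ
  exact ⟨fun i v => f v i, fun v => (f v).injective, fun i u v => hf i u (mem_univ _) v (mem_univ _)⟩

end Pool.Agent.MP_dc7d7b.TG
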