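import Pool.Agent.Lib.MP_dc7d7b_co.TG.Defs

set_option autoImplicit false

/-!
# Gluing packings (six colours)
-/

namespace Pool.Agent.MP_dc7d7b.TG

open Finset TF

open Classical in
theorem glue_zero {V : Type} {G : SimpleGraph V} {H : SimpleGraph (V × Fin 6)} (hH : Cover G H) {T L : Finset V}
    (hL : Cl G T L) (h1 : ∃ f, Pk H L f) (h2 : ∃ f, Pk H (T \ L) f) : ∃ f, Pk H T f := by
  obtain ⟨f1, hf1⟩ := h1
  obtain ⟨f2, hf2⟩ := h2
  refine ⟨fun z => if z ∈ L then f1 z else f2 z, ?_⟩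
  intro i u hu v hv hadj
  have hG : G.Adj u v := hH.edge _ _ _ _ hadj
  by_cases hu' : u ∈ L
  · have hv' : v ∈ L := hL.2 u hu' v hv hG
    simp only [if_pos hu', if_pos hv'] at hadj
    exact hf1 i u hu' v hv' hadj
  · have hv' : v ∉ L := fun h => hu' (hL.2 v h u hu hG.symm)
    simp only [if_neg hu', if_neg hv'] at hadj
    exact hf2 i u (Finset.mem_sdiff.2 ⟨hu, hu'⟩) v (Finset.mem_sdiff.2 ⟨hv, hv'⟩) hadj

open Classical in
theorem glue_one {V : Type} {G : SimpleGraph V} {H : SimpleGraph (V × Fin 6)} (hH : Cover G H) {T L : Finset V} {c : V}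
    (hc : c ∈ T) (hL : Cl G (T.erase c) L) (h1 : ∃ f, Pk H (insert c L) f) (h2 : ∃ f, Pk H (T \ L) f) :
    ∃ f, Pk H T f := by
  obtain ⟨f1, hf1⟩ := h1
  obtain ⟨f2, hf2⟩ := h2
  obtain ⟨σ, hσ⟩ : ∃ σ : Equiv.Perm (Fin 6), ∀ i, f1 c (σ i) = f2 c i :=
    ⟨(f1 c)⁻¹ * f2 c, fun i => by simp⟩
  refine ⟨fun z => if z ∈ L then f1 z * σ else f2 z, ?_⟩
  have key : ∀ i u v, u ∈ L → v ∈ T → v ∉ L → ¬ H.Adj (u, f1 u (σ i)) (v, f2 v i) := by
    intro i u v hu hv hv' hadj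
    by_cases hvc : v = c
    · subst hvc
      rw [← hσ i] at hadj
      exact hf1 (σ i) u (Finset.mem_insert_of_mem hu) v (Finset.mem_insert_self _ _) hadj
    · exact hv' (hL.2 u hu v (Finset.mem_erase.2 ⟨hvc, hv⟩) (hH.edge _ _ _ _ hadj))
  intro i u hu v hv hadj
  by_cases hu' : u ∈ L
  · by_cases hv' : v ∈ L
    · simp only [if_pos hu', if_pos hv', Equiv.Perm.mul_apply] at hadj
      exact hf1 (σ i) u (Finset.mem_insert_of_mem hu') v (Finset.mem_insert_of_mem hv') hadj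
    · simp only [if_pos hu', if_neg hv', Equiv.Perm.mul_apply] at hadj
      exact key i u v hu' hv hv' hadj
  · by_cases hv' : v ∈ L
    · simp only [if_neg hu', if_pos hv', Equiv.Perm.mul_apply] at hadj
      exact key i v u hv' hu hu' hadj.symm
    · simp only [if_neg hu', if_neg hv'] at hadj
      exact hf2 i u (Finset.mem_sdiff.2 ⟨hu, hu'⟩) v (Finset.mem_sdiff.2 ⟨hv, hv'⟩) hadj

end Pool.Agent.MP_dc7d7b.TG
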