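import Pool.Agent.Lib.MP_dc7d7b_co.TG.Defs

set_option autoImplicit false

/-!
BK (120 lines). The rows b1, b2, b3 (different) of a perfect matching P can be changed so that at most one of them is hit.
If P hits M in at most one of the three rows take P' = P. Otherwise P' = P * τ, τ a permutation of the three rows without
which moves at least two of them, with P b ∈ F (τ⁻¹ b): choose for each b_i another row b_j with P b_i ∈ F b_j (h1, h2, h3; eight
cases): either two of them point at each other (τ = Equiv.swap), or they form a 3-cycle (τ or τ⁻¹ = swap b1 b2 * swap b2 b3).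
P hits two or three of the rows. P' has at most one hit: P' and P have the same columns on the three rows. If P hits all
three, each of the three columns has its cell of M in P, and P' agrees with P in at most one row. If P hits exactly two,
b and b', and P' hits two rows r, r': a column of P b or P b' hit by P' is hit in the row b or b' (M has one cell in a
column); since P' moves two of the three rows, P' agrees with P at one of b, b' at most; so P' hits the column P b''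
of the third row b'', in a row not b, b' (their cells of M are those of P) so in b'': then (b'', P b'') ∈ M, P hits all
three. (It may be easier to do the cases by hand with `Mat`: for x, y in M with the same row or the same column x = y.)
-/

namespace Pool.Agent.MP_dc7d7b.TG

open Finset

/-- two pairs of different elements of a set of three elements meet -/
private theorem blk_four {b1 b2 b3 : Fin 6} : ∀ u v w z : Fin 6, (u = b1 ∨ u = b2 ∨ u = b3) →
    (v = b1 ∨ v = b2 ∨ v = b3) → (w = b1 ∨ w = b2 ∨ w = b3) → (z = b1 ∨ z = b2 ∨ z = b3) → u ≠ v → w ≠ z →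
    (u = w ∨ u = z ∨ v = w ∨ v = z) := by
  intro u v w z hu hv hw hz huv hwz
  rcases hu with rfl | rfl | rfl <;> rcases hv with rfl | rfl | rfl <;> rcases hw with rfl | rfl | rfl <;>
    rcases hz with rfl | rfl | rfl <;> tauto

private theorem blk_key {F : Fin 6 → Finset (Fin 6)} {P : Equiv.Perm (Fin 6)} (hP : ∀ r, P r ∈ F r)
    {b1 b2 b3 : Fin 6} {M : Finset (Fin 6 × Fin 6)} (hM : Mat M) {w z : Fin 6 × Fin 6} (hw : w ∈ M) (hz : z ∈ M)
    (hwr : w.1 = b1 ∨ w.1 = b2 ∨ w.1 = b3) (hzr : z.1 = b1 ∨ z.1 = b2 ∨ z.1 = b3) (hPw : P w.1 = w.2)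
    (hPz : P z.1 = z.2) (hwz : w ≠ z) (τ : Equiv.Perm (Fin 6))
    (hfix : ∀ r, r ≠ b1 → r ≠ b2 → r ≠ b3 → τ r = r) (f1 : P (τ b1) ∈ F b1) (f2 : P (τ b2) ∈ F b2)
    (f3 : P (τ b3) ∈ F b3)
    (hmv : (τ b1 ≠ b1 ∧ τ b2 ≠ b2) ∨ (τ b1 ≠ b1 ∧ τ b3 ≠ b3) ∨ (τ b2 ≠ b2 ∧ τ b3 ≠ b3)) :
    ∃ P' : Equiv.Perm (Fin 6), (∀ r, P' r ∈ F r) ∧ (∀ r, r ≠ b1 → r ≠ b2 → r ≠ b3 → P' r = P r) ∧
      ∀ x ∈ M, ∀ y ∈ M, (x.1 = b1 ∨ x.1 = b2 ∨ x.1 = b3) → (y.1 = b1 ∨ y.1 = b2 ∨ y.1 = b3) →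
        P' x.1 = x.2 → P' y.1 = y.2 → x = y := by
  have hsub : ∀ x ∈ M, P (τ x.1) = x.2 → τ x.1 ≠ x.1 → ∀ w ∈ M, P w.1 = w.2 → x.1 ≠ w.1 ∧ τ x.1 ≠ w.1 := by
    intro x hx e1 hne w hw e2
    constructor
    · intro h
      by_cases hxw : x = w
      · subst hxw
        exact hne (P.injective (e1.trans e2.symm))
      · exact (hM x hx w hw hxw).1 h
    · intro h
      have h2 : x.2 = w.2 := by rw [← e1, ← e2, h]
      by_cases hxw : x = w
      · subst hxw
        exact hne h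
      · exact (hM x hx w hw hxw).2 h2
  have hhit : ∀ x ∈ M, (x.1 = b1 ∨ x.1 = b2 ∨ x.1 = b3) → P (τ x.1) = x.2 → τ x.1 = x.1 := by
    intro x hx hxr e1
    by_contra hne
    have ht : τ x.1 = b1 ∨ τ x.1 = b2 ∨ τ x.1 = b3 := by
      by_contra hc
      rw [not_or, not_or] at hc
      exact hne (τ.injective (hfix _ hc.1 hc.2.1 hc.2.2))
    obtain ⟨k1, k2⟩ := hsub x hx e1 hne w hw hPw
    obtain ⟨k3, k4⟩ := hsub x hx e1 hne z hz hPz
    rcases blk_four x.1 (τ x.1) w.1 z.1 hxr ht hwr hzr (fun h => hne h.symm) (hM w hw z hz hwz).1 with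
      h | h | h | h
    · exact k1 h
    · exact k3 h
    · exact k2 h
    · exact k4 h
  refine ⟨τ.trans P, fun r => ?_, fun r r1 r2 r3 => ?_, ?_⟩
  · show P (τ r) ∈ F r
    by_cases r1 : r = b1
    · rw [r1]; exact f1
    by_cases r2 : r = b2
    · rw [r2]; exact f2
    by_cases r3 : r = b3
    · rw [r3]; exact f3
    rw [hfix r r1 r2 r3]
    exact hP r
  · show P (τ r) = P r
    rw [hfix r r1 r2 r3]
  · intro x hx y hy hxr hyr e1 e2
    have k1 : τ x.1 = x.1 := hhit x hx hxr e1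
    have k2 : τ y.1 = y.1 := hhit y hy hyr e2
    have k3 : x.1 = y.1 := by
      rcases hxr with h | h | h <;> rcases hyr with h' | h' | h' <;> rw [h] at k1 ⊢ <;> rw [h'] at k2 ⊢ <;>
        tauto
    have k4 : x.2 = y.2 := by
      rw [← e1, ← e2, k3]
    exact Prod.ext k3 k4

theorem blk {F : Fin 6 → Finset (Fin 6)} {P : Equiv.Perm (Fin 6)} (hP : ∀ r, P r ∈ F r) {b1 b2 b3 : Fin 6}
    (h12 : b1 ≠ b2) (h13 : b1 ≠ b3) (h23 : b2 ≠ b3) (h1 : P b1 ∈ F b2 ∨ P b1 ∈ F b3) (h2 : P b2 ∈ F b1 ∨ P b2 ∈ F b3)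
    (h3 : P b3 ∈ F b1 ∨ P b3 ∈ F b2) {M : Finset (Fin 6 × Fin 6)} (hM : Mat M) :
    ∃ P' : Equiv.Perm (Fin 6), (∀ r, P' r ∈ F r) ∧ (∀ r, r ≠ b1 → r ≠ b2 → r ≠ b3 → P' r = P r) ∧
      ∀ x ∈ M, ∀ y ∈ M, (x.1 = b1 ∨ x.1 = b2 ∨ x.1 = b3) → (y.1 = b1 ∨ y.1 = b2 ∨ y.1 = b3) →
        P' x.1 = x.2 → P' y.1 = y.2 → x = y := by
  by_cases hgood : ∀ x ∈ M, ∀ y ∈ M, (x.1 = b1 ∨ x.1 = b2 ∨ x.1 = b3) → (y.1 = b1 ∨ y.1 = b2 ∨ y.1 = b3) →
        P x.1 = x.2 → P y.1 = y.2 → x = y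
  · exact ⟨P, hP, fun r _ _ _ => rfl, hgood⟩
  push Not at hgood
  obtain ⟨w, hw, z, hz, hwr, hzr, hPw, hPz, hwz⟩ := hgood
  have s12 : P b1 ∈ F b2 → P b2 ∈ F b1 → _ := fun k1 k2 =>
    blk_key hP hM hw hz hwr hzr hPw hPz hwz (Equiv.swap b1 b2)
      (fun r r1 r2 _ => Equiv.swap_apply_of_ne_of_ne r1 r2)
      (by rw [Equiv.swap_apply_left]; exact k2) (by rw [Equiv.swap_apply_right]; exact k1)
      (by rw [Equiv.swap_apply_of_ne_of_ne h13.symm h23.symm]; exact hP b3)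
      (Or.inl ⟨by rw [Equiv.swap_apply_left]; exact h12.symm, by rw [Equiv.swap_apply_right]; exact h12⟩)
  have s13 : P b1 ∈ F b3 → P b3 ∈ F b1 → _ := fun k1 k2 =>
    blk_key hP hM hw hz hwr hzr hPw hPz hwz (Equiv.swap b1 b3)
      (fun r r1 _ r3 => Equiv.swap_apply_of_ne_of_ne r1 r3)
      (by rw [Equiv.swap_apply_left]; exact k2)
      (by rw [Equiv.swap_apply_of_ne_of_ne h12.symm h23]; exact hP b2)
      (by rw [Equiv.swap_apply_right]; exact k1)
      (Or.inr (Or.inl ⟨by rw [Equiv.swap_apply_left]; exact h13.symm, by rw [Equiv.swap_apply_right]; exact h13⟩))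
  have s23 : P b2 ∈ F b3 → P b3 ∈ F b2 → _ := fun k1 k2 =>
    blk_key hP hM hw hz hwr hzr hPw hPz hwz (Equiv.swap b2 b3)
      (fun r _ r2 r3 => Equiv.swap_apply_of_ne_of_ne r2 r3)
      (by rw [Equiv.swap_apply_of_ne_of_ne h12 h13]; exact hP b1)
      (by rw [Equiv.swap_apply_left]; exact k2) (by rw [Equiv.swap_apply_right]; exact k1)
      (Or.inr (Or.inr ⟨by rw [Equiv.swap_apply_left]; exact h23.symm, by rw [Equiv.swap_apply_right]; exact h23⟩))
  have c1 : P b1 ∈ F b2 → P b2 ∈ F b3 → P b3 ∈ F b1 → _ := fun k1 k2 k3 => by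
    have e1 : (Equiv.swap b2 b3 * Equiv.swap b1 b2) b1 = b3 := by
      rw [Equiv.Perm.mul_apply, Equiv.swap_apply_left, Equiv.swap_apply_left]
    have e2 : (Equiv.swap b2 b3 * Equiv.swap b1 b2) b2 = b1 := by
      rw [Equiv.Perm.mul_apply, Equiv.swap_apply_right, Equiv.swap_apply_of_ne_of_ne h12 h13]
    have e3 : (Equiv.swap b2 b3 * Equiv.swap b1 b2) b3 = b2 := by
      rw [Equiv.Perm.mul_apply, Equiv.swap_apply_of_ne_of_ne h13.symm h23.symm, Equiv.swap_apply_right]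
    exact blk_key hP hM hw hz hwr hzr hPw hPz hwz (Equiv.swap b2 b3 * Equiv.swap b1 b2)
      (fun r r1 r2 r3 => by
        rw [Equiv.Perm.mul_apply, Equiv.swap_apply_of_ne_of_ne r1 r2, Equiv.swap_apply_of_ne_of_ne r2 r3])
      (by rw [e1]; exact k3) (by rw [e2]; exact k1) (by rw [e3]; exact k2)
      (Or.inl ⟨by rw [e1]; exact h13.symm, by rw [e2]; exact h12⟩)
  have c2 : P b1 ∈ F b3 → P b3 ∈ F b2 → P b2 ∈ F b1 → _ := fun k1 k2 k3 => by
    have e1 : (Equiv.swap b1 b2 * Equiv.swap b2 b3) b1 = b2 := by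
      rw [Equiv.Perm.mul_apply, Equiv.swap_apply_of_ne_of_ne h12 h13, Equiv.swap_apply_left]
    have e2 : (Equiv.swap b1 b2 * Equiv.swap b2 b3) b2 = b3 := by
      rw [Equiv.Perm.mul_apply, Equiv.swap_apply_left, Equiv.swap_apply_of_ne_of_ne h13.symm h23.symm]
    have e3 : (Equiv.swap b1 b2 * Equiv.swap b2 b3) b3 = b1 := by
      rw [Equiv.Perm.mul_apply, Equiv.swap_apply_right, Equiv.swap_apply_right]
    exact blk_key hP hM hw hz hwr hzr hPw hPz hwz (Equiv.swap b1 b2 * Equiv.swap b2 b3)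
      (fun r r1 r2 r3 => by
        rw [Equiv.Perm.mul_apply, Equiv.swap_apply_of_ne_of_ne r2 r3, Equiv.swap_apply_of_ne_of_ne r1 r2])
      (by rw [e1]; exact k3) (by rw [e2]; exact k2) (by rw [e3]; exact k1)
      (Or.inl ⟨by rw [e1]; exact h12.symm, by rw [e2]; exact h23.symm⟩)
  rcases h1 with h1 | h1
  · rcases h2 with h2 | h2
    · exact s12 h1 h2
    · rcases h3 with h3 | h3
      · exact c1 h1 h2 h3
      · exact s23 h2 h3
  · rcases h3 with h3 | h3
    · exact s13 h1 h3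
    · rcases h2 with h2 | h2
      · exact c2 h1 h3 h2
      · exact s23 h2 h3

end Pool.Agent.MP_dc7d7b.TG
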