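import Pool.Agent.Lib.MP_dc7d7b_co.TG.PR

set_option autoImplicit false

/-!
BR (90 lines). q z for every z: `exists_extend` as at the start of `brooks_step` in ../TF/Bro.lean: H.Adj (v, a) (z, b) → q z a = b.
`prescribed` with T = S.erase v, px = q x, py = q y gives f. The neighbours of v in S are five: x, y and three others u1, u2, w
(different). `step` with T = S, t = v, u1, u2, P3 = 1, P4 = (f w).trans (q w).symm: z ∈ S, z ≠ v, u1, u2, H.Adj (v, c) (z, f z i): z is a neighbour
(hH.edge), so z = x: q x c = f x i = q x i, c = i; z = y: the same; z = w: q w c = f w i, c = P4 i.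
-/

namespace Pool.Agent.MP_dc7d7b.TG

open Finset TF

open Classical in
theorem brooks_step {V : Type} {G : SimpleGraph V} {H : SimpleGraph (V × Fin 6)} (hH : Cover G H)
    (hdeg : ∀ (T : Finset V) (v : V), dg G T v ≤ 5) {S : Finset V} {v x y : V} (hv : v ∈ S) (hx : x ∈ S) (hy : y ∈ S)
    (hxy : x ≠ y) (hnxy : ¬ G.Adj x y) (hvx : G.Adj v x) (hvy : G.Adj v y) (h5 : dg G S v = 5)
    (hcon : Con G ((S.erase x).erase y)) : ∃ g : V → Equiv.Perm (Fin 6), Pk H S g := by
  have hxv : x ≠ v := fun h => by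
    subst h
    exact G.loopless.irrefl _ hvx
  have hyv : y ≠ v := fun h => by
    subst h
    exact G.loopless.irrefl _ hvy
  have hπex : ∀ u : V, ∃ π : Equiv.Perm (Fin 6), ∀ a b, H.Adj (v, a) (u, b) → π a = b := fun u =>
    exists_extend (fun a b => H.Adj (v, a) (u, b)) (fun a b b' h h' => hH.mat _ _ _ _ _ h h')
      (fun a a' b h h' => hH.mat _ _ _ _ _ h.symm h'.symm)
  choose pi hpi using hπex
  obtain ⟨f, fx, fy, hf⟩ := prescribed hH hdeg hv hxv hyv hxy hnxy hcon (pi x) (pi y) (S.erase v)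
    (Finset.Subset.refl _)
  set N := S.filter (fun w => G.Adj v w) with hN
  have hN5 : N.card = 5 := h5
  have hxN : x ∈ N := Finset.mem_filter.mpr ⟨hx, hvx⟩
  have hyN : y ∈ N := Finset.mem_filter.mpr ⟨hy, hvy⟩
  have hc3 : ((N.erase x).erase y).card = 3 := by
    rw [Finset.card_erase_of_mem (Finset.mem_erase.mpr ⟨hxy.symm, hyN⟩),
      Finset.card_erase_of_mem hxN, hN5]
  obtain ⟨u1, u2, w, h12, h1w, h2w, hM⟩ := Finset.card_eq_three.1 hc3
  have hmem : ∀ z ∈ (N.erase x).erase y, z ∈ S ∧ G.Adj v z := by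
    intro z hz
    rw [Finset.mem_erase, Finset.mem_erase, hN, Finset.mem_filter] at hz
    exact hz.2.2
  have hu1 : u1 ∈ (N.erase x).erase y := by rw [hM]; simp
  have hu2 : u2 ∈ (N.erase x).erase y := by rw [hM]; simp
  obtain ⟨g, hg, -⟩ := step hH hdeg hv (hmem u1 hu1).1 (hmem u2 hu2).1 h12 (hmem u1 hu1).2
    (hmem u2 hu2).2 hf 1 ((f w).trans (pi w).symm) (by
      intro i c z hz hzv hz1 hz2 hadj
      have hzN : z ∈ N := Finset.mem_filter.mpr ⟨hz, hH.edge _ _ _ _ hadj⟩
      by_cases hzx : z = x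
      · left
        subst hzx
        rw [fx] at hadj
        exact (pi z).injective (hpi z _ _ hadj)
      by_cases hzy : z = y
      · left
        subst hzy
        rw [fy] at hadj
        exact (pi z).injective (hpi z _ _ hadj)
      right
      have hzM : z ∈ (N.erase x).erase y := Finset.mem_erase.mpr ⟨hzy, Finset.mem_erase.mpr ⟨hzx, hzN⟩⟩
      rw [hM, Finset.mem_insert, Finset.mem_insert, Finset.mem_singleton] at hzM
      rcases hzM with h | h | h
      · exact absurd h hz1
      · exact absurd h hz2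
      · subst h
        have h7 := hpi z _ _ hadj
        rw [Equiv.trans_apply, ← h7, Equiv.symm_apply_apply])
  exact ⟨g, hg⟩

end Pool.Agent.MP_dc7d7b.TG
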