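import Pool.Agent.Lib.MP_dc7d7b_co.TF.DefB

set_option autoImplicit false

/-!
# Six colours: definitions

`F r` is the set of columns allowed in row `r` (6 rows, 6 columns).
-/

namespace Pool.Agent.MP_dc7d7b.TG

open Finset

/-- The transposed family. -/
def tr (F : Fin 6 → Finset (Fin 6)) : Fin 6 → Finset (Fin 6) := fun c => univ.filter (fun r => c ∈ F r)

/-- All rows and columns have at least `k` allowed cells. -/
structure Dg (k : ℕ) (F : Fin 6 → Finset (Fin 6)) : Prop where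
  row : ∀ r, k ≤ (F r).card
  col : ∀ c, k ≤ (tr F c).card

/-- `N` is bad for `F`: a rectangle with `card R + card C = 7` all of whose allowed cells are in `N`. -/
def Bad (F : Fin 6 → Finset (Fin 6)) (N : Equiv.Perm (Fin 6)) : Prop :=
  ∃ R C : Finset (Fin 6), R.card + C.card = 7 ∧ ∀ r ∈ R, ∀ c ∈ C, c ∈ F r → N r = c

/-- A set of cells with different rows and different columns. -/
def Mat (M : Finset (Fin 6 × Fin 6)) : Prop := ∀ x ∈ M, ∀ y ∈ M, x ≠ y → x.1 ≠ y.1 ∧ x.2 ≠ y.2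

/-- The number of cells of `M` in the permutation `N`. -/
def hit (M : Finset (Fin 6 × Fin 6)) (N : Equiv.Perm (Fin 6)) : ℕ := (M.filter (fun x => N x.1 = x.2)).card

/-- Rows of three cells containing `Q`. -/
def R3 (E : Fin 6 → Finset (Fin 6)) (Q : Finset (Fin 6)) : Finset (Fin 6) :=
  univ.filter (fun r => Q ⊆ E r ∧ (E r).card = 3)

/-- Three rows of `R3 E Q` are hit by `N` outside `Q`. -/
def RB (E : Fin 6 → Finset (Fin 6)) (N : Equiv.Perm (Fin 6)) (Q : Finset (Fin 6)) : Prop :=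
  Q.card = 2 ∧ ∃ R ⊆ R3 E Q, R.card = 3 ∧ ∀ r ∈ R, N r ∈ E r \ Q

/-- All allowed cells of a 4 × 4 rectangle containing `M` are in `M`. -/
def Full (E : Fin 6 → Finset (Fin 6)) (M : Finset (Fin 6 × Fin 6)) : Prop :=
  ∃ R C : Finset (Fin 6), R.card = 4 ∧ C.card = 4 ∧ (∀ x ∈ M, x.1 ∈ R ∧ x.2 ∈ C) ∧
    ∀ r ∈ R, ∀ c ∈ C, c ∈ E r → (r, c) ∈ M

/-- The cells outside three permutations. -/
def co (A B D : Equiv.Perm (Fin 6)) : Fin 6 → Finset (Fin 6) :=
  fun r => univ.filter (fun c => c ≠ A r ∧ c ≠ B r ∧ c ≠ D r)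

/-- `f` is a packing on `T`. -/
def Pk {V : Type} (H : SimpleGraph (V × Fin 6)) (T : Finset V) (f : V → Equiv.Perm (Fin 6)) : Prop :=
  ∀ i, ∀ u ∈ T, ∀ v ∈ T, ¬ H.Adj (u, f u i) (v, f v i)

open Classical in
/-- The cells of `u` (columns transported by `q`) not forbidden by the vertices of `T` other than `t`, `u`. -/
noncomputable def fam {V : Type} (H : SimpleGraph (V × Fin 6)) (T : Finset V) (t u : V) (q : Equiv.Perm (Fin 6))
    (f : V → Equiv.Perm (Fin 6)) : Fin 6 → Finset (Fin 6) :=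
  fun i => univ.filter (fun c => ¬ forb H ((T.erase t).erase u) f u i (q c))

theorem mem_tr {F : Fin 6 → Finset (Fin 6)} {r c : Fin 6} : r ∈ tr F c ↔ c ∈ F r := by simp [tr]

theorem tr_tr (F : Fin 6 → Finset (Fin 6)) : tr (tr F) = F := by
  funext r; ext c; simp [tr]

theorem Dg.tr {k : ℕ} {F : Fin 6 → Finset (Fin 6)} (h : Dg k F) : Dg k (tr F) :=
  ⟨h.col, by rw [tr_tr]; exact h.row⟩

theorem mem_R3 {E : Fin 6 → Finset (Fin 6)} {Q : Finset (Fin 6)} {r : Fin 6} :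
    r ∈ R3 E Q ↔ Q ⊆ E r ∧ (E r).card = 3 := by
  simp [R3]

theorem mem_co {A B D : Equiv.Perm (Fin 6)} {r c : Fin 6} : c ∈ co A B D r ↔ c ≠ A r ∧ c ≠ B r ∧ c ≠ D r := by
  simp [co]

end Pool.Agent.MP_dc7d7b.TG
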