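import Pool.Agent.Lib.MP_dc7d7b_co.TG.Defs

set_option autoImplicit false

/-!
E3 (40 lines; copy of ../TF/ExF.lean with `exists_perm` for d = 3).
-/

namespace Pool.Agent.MP_dc7d7b.TG

open Finset TF

open Classical in
theorem ext_three {V : Type} {G : SimpleGraph V} {H : SimpleGraph (V × Fin 6)} (hH : Cover G H) {T : Finset V} {t : V}
    (h3 : dg G T t ≤ 3) {f : V → Equiv.Perm (Fin 6)} (hf : Pk H (T.erase t) f) :
    ∃ g : V → Equiv.Perm (Fin 6), Pk H T g ∧ ∀ z, z ≠ t → g z = f z := by
  have hD : Deg 3 (forb H (T.erase t) f t) := by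
    refine (forb_deg hH (T.erase t) f t).mono (le_trans (Finset.card_le_card ?_) h3)
    exact Finset.filter_subset_filter _ (Finset.erase_subset _ _)
  obtain ⟨σ, hσ⟩ := exists_perm (by simp) hD
  refine ⟨Function.update f t σ, ?_, fun z hz => Function.update_of_ne hz _ _⟩
  intro i x hx y hy hadj
  by_cases hxv : x = t
  · by_cases hyv : y = t
    · subst hxv
      subst hyv
      exact hH.fib _ _ _ hadj
    · subst hxv
      rw [Function.update_self, Function.update_of_ne hyv] at hadj
      exact hσ i ⟨y, Finset.mem_erase.mpr ⟨hyv, hy⟩, hadj.symm⟩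
  · by_cases hyv : y = t
    · subst hyv
      rw [Function.update_self, Function.update_of_ne hxv] at hadj
      exact hσ i ⟨x, Finset.mem_erase.mpr ⟨hxv, hx⟩, hadj⟩
    · rw [Function.update_of_ne hxv, Function.update_of_ne hyv] at hadj
      exact hf i x (Finset.mem_erase.mpr ⟨hxv, hx⟩) y (Finset.mem_erase.mpr ⟨hyv, hy⟩) hadj

end Pool.Agent.MP_dc7d7b.TG
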