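import Pool.Agent.Lib.MP_dc7d7b_co.TG.Defs

set_option autoImplicit false

/-!
EM (130 lines; the model is ../TF/ElM.lean). R ⊆ R3 E Q, card R = 3, hit by N outside Q. Let n = card (R3 E Q) ≥ 3. The four columns
outside Q have at least 3 rows each: at least 12 cells outside Q. The rows of R3 E Q have one, the others at most 4:
n + 4 (6 - n) ≥ 12, n ≤ 4. Different rows of R3 E Q have different (so disjoint, both singletons) E r \ Q: n = 3: R = R3 E Q,
E r \ Q = {N r}. n = 4: equality, so the two other rows contain all four columns outside Q and each of these columns has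
exactly 3 rows, so exactly one row of R3 E Q.
-/

namespace Pool.Agent.MP_dc7d7b.TG

open Finset

private theorem dbl (E : Fin 6 → Finset (Fin 6)) (Q : Finset (Fin 6)) :
    ∑ r, (E r \ Q).card = ∑ c ∈ Qᶜ, (tr E c).card := by
  have h1 : ∀ r, (E r \ Q).card = ∑ c ∈ Qᶜ, if c ∈ E r then 1 else 0 := by
    intro r
    rw [← Finset.card_filter]
    congr 1
    ext c
    simp only [Finset.mem_sdiff, Finset.mem_filter, Finset.mem_compl]
    tauto
  have h2 : ∀ c, (tr E c).card = ∑ r, if c ∈ E r then 1 else 0 := by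
    intro c
    rw [tr, Finset.card_filter]
  simp only [h1, h2]
  exact Finset.sum_comm

theorem rb_match {E : Fin 6 → Finset (Fin 6)} (hE : Dg 3 E) {N : Equiv.Perm (Fin 6)} {Q : Finset (Fin 6)} (h : RB E N Q) :
    (R3 E Q).card ≤ 4 ∧ ∀ r ∈ R3 E Q, ∀ r' ∈ R3 E Q, r ≠ r' → Disjoint (E r \ Q) (E r' \ Q) := by
  obtain ⟨hQ, R, hR, hR3, hN⟩ := h
  have hQc : (Qᶜ).card = 4 := by
    rw [Finset.card_compl, hQ]
    rfl
  have one : ∀ r ∈ R3 E Q, (E r \ Q).card = 1 := by
    intro r hr
    rw [mem_R3] at hr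
    rw [Finset.card_sdiff_of_subset hr.1, hr.2, hQ]
  have five : ∀ r, (E r \ Q).card ≤ 4 := by
    intro r
    rw [← hQc]
    apply Finset.card_le_card
    intro c hc
    rw [Finset.mem_sdiff] at hc
    exact Finset.mem_compl.2 hc.2
  have four : 3 ≤ (R3 E Q).card := by
    rw [← hR3]
    exact Finset.card_le_card hR
  have h20 : 12 ≤ ∑ c ∈ Qᶜ, (tr E c).card := by
    have := Finset.card_nsmul_le_sum (Qᶜ) (fun c => (tr E c).card) 3 (fun c _ => hE.col c)
    rw [hQc] at this
    simpa using this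
  have hsplit : ∑ r, (E r \ Q).card = (R3 E Q).card + ∑ r ∈ (R3 E Q)ᶜ, (E r \ Q).card := by
    rw [← Finset.sum_add_sum_compl (R3 E Q)]
    congr 1
    rw [Finset.sum_congr rfl one]
    simp
  have hPc : ((R3 E Q)ᶜ).card = 6 - (R3 E Q).card := by
    rw [Finset.card_compl]
    rfl
  have hle : ∑ r ∈ (R3 E Q)ᶜ, (E r \ Q).card ≤ (6 - (R3 E Q).card) * 4 := by
    rw [← hPc]
    have := Finset.sum_le_card_nsmul ((R3 E Q)ᶜ) (fun r => (E r \ Q).card) 4 (fun r _ => five r)
    simpa using this
  have hP8 : (R3 E Q).card ≤ 6 := by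
    have := Finset.card_le_univ (R3 E Q)
    simpa using this
  have hd := dbl E Q
  have hn : (R3 E Q).card ≤ 4 := by omega
  refine ⟨hn, ?_⟩
  intro r hr r' hr' hne
  rw [Finset.disjoint_left]
  intro c hc hc'
  have hsing : ∀ s ∈ R, E s \ Q = {N s} := by
    intro s hs
    obtain ⟨x, hx⟩ := Finset.card_eq_one.1 (one s (hR hs))
    have := hN s hs
    rw [hx, Finset.mem_singleton] at this
    rw [hx, this]
  rcases Nat.lt_or_ge (R3 E Q).card 4 with h5 | h5
  · have heq : R = R3 E Q := Finset.eq_of_subset_of_card_le hR (by omega)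
    rw [← heq] at hr hr'
    rw [hsing r hr, Finset.mem_singleton] at hc
    rw [hsing r' hr', Finset.mem_singleton] at hc'
    exact hne (N.injective (hc.symm.trans hc'))
  · have h5' : (R3 E Q).card = 4 := le_antisymm hn h5
    have hPc3 : ((R3 E Q)ᶜ).card = 2 := by rw [hPc, h5']
    have hsum15 : 8 ≤ ∑ s ∈ (R3 E Q)ᶜ, (E s \ Q).card := by omega
    have hfull : ∀ s ∈ (R3 E Q)ᶜ, (E s \ Q).card = 4 := by
      intro s hs
      have e1 := Finset.add_sum_erase ((R3 E Q)ᶜ) (fun s => (E s \ Q).card) hs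
      have e2 := Finset.sum_le_card_nsmul (((R3 E Q)ᶜ).erase s) (fun s => (E s \ Q).card) 4 (fun r _ => five r)
      rw [Finset.card_erase_of_mem hs, hPc3] at e2
      have e3 := five s
      simp only [smul_eq_mul] at e1 e2
      omega
    rw [Finset.mem_sdiff] at hc hc'
    have hcQ : c ∈ Qᶜ := Finset.mem_compl.2 hc.2
    have hin : ∀ s ∈ (R3 E Q)ᶜ, c ∈ E s := by
      intro s hs
      have hsub : E s \ Q ⊆ Qᶜ := by
        intro x hx
        rw [Finset.mem_sdiff] at hx
        exact Finset.mem_compl.2 hx.2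
      have heq : E s \ Q = Qᶜ := Finset.eq_of_subset_of_card_le hsub (by rw [hQc, hfull s hs])
      rw [← heq, Finset.mem_sdiff] at hcQ
      exact hcQ.1
    have hbig : 4 ≤ (tr E c).card := by
      have hsub : insert r (insert r' (R3 E Q)ᶜ) ⊆ tr E c := by
        intro s hs
        rw [mem_tr]
        rw [Finset.mem_insert, Finset.mem_insert] at hs
        rcases hs with rfl | rfl | hs
        · exact hc.1
        · exact hc'.1
        · exact hin s hs
      have hr1 : r' ∉ (R3 E Q)ᶜ := fun h' => (Finset.mem_compl.1 h') hr'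
      have hr2 : r ∉ insert r' (R3 E Q)ᶜ := by
        rw [Finset.mem_insert]
        rintro (h' | h')
        · exact hne h'
        · exact (Finset.mem_compl.1 h') hr
      have := Finset.card_le_card hsub
      rw [Finset.card_insert_of_notMem hr2, Finset.card_insert_of_notMem hr1, hPc3] at this
      exact this
    have e1 := Finset.add_sum_erase (Qᶜ) (fun c => (tr E c).card) hcQ
    have e2 := Finset.card_nsmul_le_sum ((Qᶜ).erase c) (fun c => (tr E c).card) 3 (fun c _ => hE.col c)
    rw [Finset.card_erase_of_mem hcQ, hQc] at e2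
    simp only [smul_eq_mul] at e1 e2
    omega

end Pool.Agent.MP_dc7d7b.TG
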