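import Pool.Agent.Lib.MP_dc7d7b_co.TG.EA
import Pool.Agent.Lib.MP_dc7d7b_co.TG.EU
import Pool.Agent.Lib.MP_dc7d7b_co.TG.EM
import Pool.Agent.Lib.MP_dc7d7b_co.TG.EX

set_option autoImplicit false

/-!
EL (230 lines; the model is ../TF/Elem.lean; new is the last clause). For a set Q let A Q be the set of cells (r, c) with
r ∈ R3 E Q, c ∈ E r \ Q (one for each r), and B Q' the set of cells (r, c) with c ∈ R3 (tr E) Q', r ∈ tr E c \ Q'.
If RB E N Q then N contains at least 3 cells of A Q; if RB (tr E) N⁻¹ Q' then N contains at least 3 cells of B Q'.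
Cases: (1) no RB at all: M = ∅ (no N is bad, `bad_three`). (2) only for rows: M = A Q (Q the same for all N by `rb_unique`;
`rb_match`: card ≤ 4, different columns). (3) only for columns: M = B Q'. (4) both: M = A Q ∪ B Q'. By `rb_cross` (for E, and for
tr E with `tr_tr`) R3 E Q is disjoint from Q' and R3 (tr E) Q' from Q, so all cells of M are in Q'ᶜ × Qᶜ, and M is a matching as in
Elem.lean: card M ≤ card Q'ᶜ = 4.
LAST CLAUSE, card M = 4. If card (A Q) = 4 (so M = A Q, in cases 2 and 4): `Full E M` with the rows R3 E Q (four) and the columns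
Qᶜ (four): c ∈ E r, r ∈ R3 E Q, c ∉ Q means (r, c) ∈ A Q. If card (B Q') = 4: the same, rows Q'ᶜ, columns R3 (tr E) Q'. Otherwise
(case 4) both have 3 cells (at least 3 by RB, at most card M = 4) and card M = 4, so A Q ∩ B Q' has 2 cells; let m be in it.
A bad N has RB E N Q: R ⊆ R3 E Q, card R = 3 = card (R3 E Q) (= card (A Q)), so all rows of R3 E Q are hit outside Q, N contains A Q ∋ m;
or RB (tr E) N⁻¹ Q': N contains B Q' ∋ m. (card (A Q) = card (R3 E Q), as each E r \ Q is a singleton.)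
-/

namespace Pool.Agent.MP_dc7d7b.TG

open Finset

/-- the cells of the rows -/
private def cA (E : Fin 6 → Finset (Fin 6)) (Q : Finset (Fin 6)) : Finset (Fin 6 × Fin 6) :=
  univ.filter fun x => x.1 ∈ R3 E Q ∧ x.2 ∈ E x.1 \ Q

/-- the cells of the columns -/
private def cB (E : Fin 6 → Finset (Fin 6)) (Q : Finset (Fin 6)) : Finset (Fin 6 × Fin 6) :=
  univ.filter fun x => x.2 ∈ R3 (tr E) Q ∧ x.1 ∈ tr E x.2 \ Q

private theorem mem_cA {E : Fin 6 → Finset (Fin 6)} {Q : Finset (Fin 6)} {x : Fin 6 × Fin 6} :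
    x ∈ cA E Q ↔ x.1 ∈ R3 E Q ∧ x.2 ∈ E x.1 \ Q := by simp only [cA, mem_filter, mem_univ, true_and]

private theorem mem_cB {E : Fin 6 → Finset (Fin 6)} {Q : Finset (Fin 6)} {x : Fin 6 × Fin 6} :
    x ∈ cB E Q ↔ x.2 ∈ R3 (tr E) Q ∧ x.1 ∈ tr E x.2 \ Q := by simp only [cB, mem_filter, mem_univ, true_and]

private theorem el_sing {E : Fin 6 → Finset (Fin 6)} {Q : Finset (Fin 6)} {r a b : Fin 6} (hQ : Q.card = 2) (hr : r ∈ R3 E Q)
    (ha : a ∈ E r \ Q) (hb : b ∈ E r \ Q) : a = b := by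
  obtain ⟨h1, h2⟩ := mem_R3.1 hr
  have h3 := card_sdiff_of_subset h1
  exact card_le_one.1 (by omega) a ha b hb

private theorem matA {E : Fin 6 → Finset (Fin 6)} (hE : Dg 3 E) {N : Equiv.Perm (Fin 6)} {Q : Finset (Fin 6)} (h : RB E N Q)
    {x y : Fin 6 × Fin 6} (hx : x ∈ cA E Q) (hy : y ∈ cA E Q) (hxy : x ≠ y) : x.1 ≠ y.1 ∧ x.2 ≠ y.2 := by
  obtain ⟨hx1, hx2⟩ := mem_cA.1 hx
  obtain ⟨hy1, hy2⟩ := mem_cA.1 hy
  have h1 : x.1 ≠ y.1 := by
    intro h1
    apply hxy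
    rw [← h1] at hy2
    exact Prod.ext h1 (el_sing h.1 hx1 hx2 hy2)
  refine ⟨h1, fun h2 => ?_⟩
  have h3 := (rb_match hE h).2 x.1 hx1 y.1 hy1 h1
  rw [disjoint_left] at h3
  rw [h2] at hx2
  exact h3 hx2 hy2

private theorem matB {E : Fin 6 → Finset (Fin 6)} (hE : Dg 3 E) {N : Equiv.Perm (Fin 6)} {Q : Finset (Fin 6)} (h : RB (tr E) N Q)
    {x y : Fin 6 × Fin 6} (hx : x ∈ cB E Q) (hy : y ∈ cB E Q) (hxy : x ≠ y) : x.1 ≠ y.1 ∧ x.2 ≠ y.2 := by
  have hx' : x.swap ∈ cA (tr E) Q := mem_cA.2 (mem_cB.1 hx)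
  have hy' : y.swap ∈ cA (tr E) Q := mem_cA.2 (mem_cB.1 hy)
  have h1 := matA hE.tr h hx' hy' (fun h2 => hxy (Prod.swap_injective h2))
  exact ⟨h1.2, h1.1⟩

private theorem hitA {E : Fin 6 → Finset (Fin 6)} {N : Equiv.Perm (Fin 6)} {Q : Finset (Fin 6)} (h : RB E N Q)
    {M : Finset (Fin 6 × Fin 6)} (hM : cA E Q ⊆ M) : 3 ≤ hit M N := by
  obtain ⟨-, R, hR, hc, hN⟩ := h
  rw [← hc]
  unfold hit
  refine card_le_card_of_injOn (fun r => (r, N r)) ?_ ?_
  · intro r hr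
    have hr' : r ∈ R := hr
    exact mem_coe.2 (mem_filter.2 ⟨hM (mem_cA.2 ⟨hR hr', hN r hr'⟩), rfl⟩)
  · intro r _ r' _ h1
    exact (Prod.mk.inj h1).1

private theorem hitB {E : Fin 6 → Finset (Fin 6)} {N : Equiv.Perm (Fin 6)} {Q : Finset (Fin 6)} (h : RB (tr E) N⁻¹ Q)
    {M : Finset (Fin 6 × Fin 6)} (hM : cB E Q ⊆ M) : 3 ≤ hit M N := by
  obtain ⟨-, R, hR, hc, hN⟩ := h
  rw [← hc]
  unfold hit
  refine card_le_card_of_injOn (fun c => (N⁻¹ c, c)) ?_ ?_
  · intro c hcR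
    have hc' : c ∈ R := hcR
    exact mem_coe.2 (mem_filter.2 ⟨hM (mem_cB.2 ⟨hR hc', hN c hc'⟩), Equiv.apply_symm_apply N c⟩)
  · intro c _ c' _ h1
    exact (Prod.mk.inj h1).2

private theorem cardM {M : Finset (Fin 6 × Fin 6)} (hM : Mat M) {S : Finset (Fin 6)} (hS : ∀ x ∈ M, x.1 ∈ S) : M.card ≤ S.card := by
  refine card_le_card_of_injOn Prod.fst (fun x hx => mem_coe.2 (hS x (mem_coe.1 hx))) ?_
  intro x hx y hy h
  by_contra hxy
  exact (hM x (mem_coe.1 hx) y (mem_coe.1 hy) hxy).1 h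

private theorem cardM' {M : Finset (Fin 6 × Fin 6)} (hM : Mat M) {S : Finset (Fin 6)} (hS : ∀ x ∈ M, x.2 ∈ S) : M.card ≤ S.card := by
  refine card_le_card_of_injOn Prod.snd (fun x hx => mem_coe.2 (hS x (mem_coe.1 hx))) ?_
  intro x hx y hy h
  by_contra hxy
  exact (hM x (mem_coe.1 hx) y (mem_coe.1 hy) hxy).2 h

private theorem allA {E : Fin 6 → Finset (Fin 6)} {N : Equiv.Perm (Fin 6)} {Q : Finset (Fin 6)} (h : RB E N Q)
    (hc : (cA E Q).card ≤ 3) {x : Fin 6 × Fin 6} (hx : x ∈ cA E Q) : N x.1 = x.2 := by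
  have h1 : 3 ≤ ((cA E Q).filter (fun x => N x.1 = x.2)).card := hitA h Subset.rfl
  have h2 : (cA E Q).filter (fun x => N x.1 = x.2) = cA E Q :=
    eq_of_subset_of_card_le (filter_subset _ _) (hc.trans h1)
  rw [← h2] at hx
  exact (mem_filter.1 hx).2

private theorem allB {E : Fin 6 → Finset (Fin 6)} {N : Equiv.Perm (Fin 6)} {Q : Finset (Fin 6)} (h : RB (tr E) N⁻¹ Q)
    (hc : (cB E Q).card ≤ 3) {x : Fin 6 × Fin 6} (hx : x ∈ cB E Q) : N x.1 = x.2 := by
  have h1 : 3 ≤ ((cB E Q).filter (fun x => N x.1 = x.2)).card := hitB h Subset.rfl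
  have h2 : (cB E Q).filter (fun x => N x.1 = x.2) = cB E Q :=
    eq_of_subset_of_card_le (filter_subset _ _) (hc.trans h1)
  rw [← h2] at hx
  exact (mem_filter.1 hx).2

private theorem fullA {E : Fin 6 → Finset (Fin 6)} (hE : Dg 3 E) {N : Equiv.Perm (Fin 6)} {Q : Finset (Fin 6)}
    (h : RB E N Q) {M : Finset (Fin 6 × Fin 6)} (hM : cA E Q ⊆ M) (hc : M.card ≤ 4) (h4 : 4 ≤ (cA E Q).card) :
    Full E M := by
  have h1 : cA E Q = M := eq_of_subset_of_card_le hM (hc.trans h4)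
  have h2 : (cA E Q).card ≤ (R3 E Q).card :=
    cardM (fun x hx y hy hxy => matA hE h hx hy hxy) fun x hx => (mem_cA.1 hx).1
  have h3 := (rb_match hE h).1
  refine ⟨R3 E Q, Qᶜ, by omega, ?_, ?_, ?_⟩
  · rw [card_compl, Fintype.card_fin, h.1]
  · intro x hx
    rw [← h1] at hx
    obtain ⟨hx1, hx2⟩ := mem_cA.1 hx
    exact ⟨hx1, mem_compl.2 (mem_sdiff.1 hx2).2⟩
  · intro r hr c hc' hm
    rw [← h1]
    exact mem_cA.2 ⟨hr, mem_sdiff.2 ⟨hm, mem_compl.1 hc'⟩⟩

private theorem fullB {E : Fin 6 → Finset (Fin 6)} (hE : Dg 3 E) {N : Equiv.Perm (Fin 6)} {Q : Finset (Fin 6)}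
    (h : RB (tr E) N Q) {M : Finset (Fin 6 × Fin 6)} (hM : cB E Q ⊆ M) (hc : M.card ≤ 4) (h4 : 4 ≤ (cB E Q).card) :
    Full E M := by
  have h1 : cB E Q = M := eq_of_subset_of_card_le hM (hc.trans h4)
  have h2 : (cB E Q).card ≤ (R3 (tr E) Q).card :=
    cardM' (fun x hx y hy hxy => matB hE h hx hy hxy) fun x hx => (mem_cB.1 hx).1
  have h3 := (rb_match hE.tr h).1
  refine ⟨Qᶜ, R3 (tr E) Q, ?_, by omega, ?_, ?_⟩
  · rw [card_compl, Fintype.card_fin, h.1]
  · intro x hx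
    rw [← h1] at hx
    obtain ⟨hx1, hx2⟩ := mem_cB.1 hx
    exact ⟨mem_compl.2 (mem_sdiff.1 hx2).2, hx1⟩
  · intro r hr c hc' hm
    rw [← h1]
    exact mem_cB.2 ⟨hc', mem_sdiff.2 ⟨mem_tr.2 hm, mem_compl.1 hr⟩⟩

theorem elem {E : Fin 6 → Finset (Fin 6)} (hE : Dg 3 E) :
    ∃ M : Finset (Fin 6 × Fin 6), Mat M ∧ M.card ≤ 4 ∧ (∀ N : Equiv.Perm (Fin 6), Bad E N → 3 ≤ hit M N) ∧
      (M.card = 4 → Full E M ∨ ∃ m ∈ M, ∀ N : Equiv.Perm (Fin 6), Bad E N → N m.1 = m.2) := by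
  by_cases hA : ∃ N Q, RB E N Q
  · obtain ⟨N0, Q, h0⟩ := hA
    have hm := rb_match hE h0
    by_cases hB : ∃ N Q', RB (tr E) N Q'
    · obtain ⟨N1, Q', h1⟩ := hB
      have hd1 : Disjoint (R3 E Q) Q' := rb_cross hE h0 h1
      have hd2 : Disjoint (R3 (tr E) Q') Q := rb_cross hE.tr h1 (by rw [tr_tr]; exact h0)
      rw [disjoint_left] at hd1 hd2
      have key : ∀ x ∈ cA E Q, ∀ y ∈ cB E Q', x ≠ y → x.1 ≠ y.1 ∧ x.2 ≠ y.2 := by
        intro x hx y hy hxy
        obtain ⟨hx1, hx2⟩ := mem_cA.1 hx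
        obtain ⟨hy1, hy2⟩ := mem_cB.1 hy
        constructor
        · intro h
          apply hxy
          have h2 : y.2 ∈ E x.1 \ Q := by
            refine mem_sdiff.2 ⟨?_, hd2 hy1⟩
            rw [h]
            exact mem_tr.1 (mem_sdiff.1 hy2).1
          exact Prod.ext h (el_sing h0.1 hx1 hx2 h2)
        · intro h
          apply hxy
          have h2 : x.1 ∈ tr E y.2 \ Q' := by
            refine mem_sdiff.2 ⟨?_, hd1 hx1⟩
            rw [← h]
            exact mem_tr.2 (mem_sdiff.1 hx2).1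
          exact Prod.ext (el_sing h1.1 hy1 h2 hy2) h
      have hM : Mat (cA E Q ∪ cB E Q') := by
        intro x hx y hy hxy
        rcases mem_union.1 hx with hx | hx <;> rcases mem_union.1 hy with hy | hy
        · exact matA hE h0 hx hy hxy
        · exact key x hx y hy hxy
        · have h2 := key y hy x hx (Ne.symm hxy)
          exact ⟨h2.1.symm, h2.2.symm⟩
        · exact matB hE h1 hx hy hxy
      have hc4 : (cA E Q ∪ cB E Q').card ≤ 4 := by
        have h2 : (cA E Q ∪ cB E Q').card ≤ (Q'ᶜ).card := by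
          refine cardM hM fun x hx => ?_
          rw [mem_compl]
          rcases mem_union.1 hx with hx | hx
          · exact hd1 (mem_cA.1 hx).1
          · exact (mem_sdiff.1 (mem_cB.1 hx).2).2
        rw [card_compl, Fintype.card_fin, h1.1] at h2
        exact h2
      refine ⟨cA E Q ∪ cB E Q', hM, hc4, ?_, ?_⟩
      · intro N hN
        rcases bad_three hE hN with ⟨Q1, hQ1⟩ | ⟨Q1, hQ1⟩
        · rw [← rb_unique hE h0 hQ1] at hQ1
          exact hitA hQ1 subset_union_left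
        · rw [← rb_unique hE.tr h1 hQ1] at hQ1
          exact hitB hQ1 subset_union_right
      · intro hc
        by_cases hcA : 4 ≤ (cA E Q).card
        · exact Or.inl (fullA hE h0 subset_union_left hc4 hcA)
        by_cases hcB : 4 ≤ (cB E Q').card
        · exact Or.inl (fullB hE h1 subset_union_right hc4 hcB)
        right
        have hi := card_union_add_card_inter (cA E Q) (cB E Q')
        have hp : 0 < (cA E Q ∩ cB E Q').card := by
          have h3 : 3 ≤ (cA E Q).card := (hitA h0 Subset.rfl).trans (card_filter_le _ _)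
          have h4 : 3 ≤ (cB E Q').card := by
            have h5 : RB (tr E) (N1⁻¹)⁻¹ Q' := by
              rw [inv_inv]
              exact h1
            exact (hitB h5 Subset.rfl).trans (card_filter_le _ _)
          omega
        obtain ⟨m, hmm⟩ := card_pos.1 hp
        obtain ⟨hmA, hmB⟩ := mem_inter.1 hmm
        refine ⟨m, mem_union_left _ hmA, fun N hN => ?_⟩
        rcases bad_three hE hN with ⟨Q1, hQ1⟩ | ⟨Q1, hQ1⟩
        · rw [← rb_unique hE h0 hQ1] at hQ1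
          exact allA hQ1 (by omega) hmA
        · rw [← rb_unique hE.tr h1 hQ1] at hQ1
          exact allB hQ1 (by omega) hmB
    · have hM : Mat (cA E Q) := fun x hx y hy hxy => matA hE h0 hx hy hxy
      have hc4 : (cA E Q).card ≤ 4 := (cardM hM fun x hx => (mem_cA.1 hx).1).trans hm.1
      refine ⟨cA E Q, hM, hc4, fun N hN => ?_, fun hc => Or.inl (fullA hE h0 Subset.rfl hc4 hc.ge)⟩
      rcases bad_three hE hN with ⟨Q1, hQ1⟩ | ⟨Q1, hQ1⟩
      · rw [← rb_unique hE h0 hQ1] at hQ1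
        exact hitA hQ1 Subset.rfl
      · exact absurd ⟨_, Q1, hQ1⟩ hB
  · by_cases hB : ∃ N Q', RB (tr E) N Q'
    · obtain ⟨N1, Q', h1⟩ := hB
      have hM : Mat (cB E Q') := fun x hx y hy hxy => matB hE h1 hx hy hxy
      have hc4 : (cB E Q').card ≤ 4 := (cardM' hM fun x hx => (mem_cB.1 hx).1).trans (rb_match hE.tr h1).1
      refine ⟨cB E Q', hM, hc4, fun N hN => ?_, fun hc => Or.inl (fullB hE h1 Subset.rfl hc4 hc.ge)⟩
      rcases bad_three hE hN with ⟨Q1, hQ1⟩ | ⟨Q1, hQ1⟩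
      · exact absurd ⟨_, Q1, hQ1⟩ hA
      · rw [← rb_unique hE.tr h1 hQ1] at hQ1
        exact hitB hQ1 Subset.rfl
    · refine ⟨∅, fun x hx => absurd hx (notMem_empty x), by simp, fun N hN => ?_, fun hc => by simp at hc⟩
      rcases bad_three hE hN with ⟨Q1, hQ1⟩ | ⟨Q1, hQ1⟩
      · exact absurd ⟨_, Q1, hQ1⟩ hA
      · exact absurd ⟨_, Q1, hQ1⟩ hB

end Pool.Agent.MP_dc7d7b.TG
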