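import Pool.Agent.Lib.MP_dc7d7b_co.TG.BK

set_option autoImplicit false

/-!
FC (160 lines). A cell m with a 3 × 4 rectangle whose only allowed cell is m. Let P be a perfect matching, R the rows
(card 3), C the columns (card 4), Q = Cᶜ (card 2). P maps the three rows of R to at least one column of C, so (h)
m.1 ∈ R, m.2 ∈ C, P m.1 = m.2, and the other two rows a1 ≠ a2 of R have F a ⊆ Q, so F a1 = F a2 = Q (card F a ≥ 2) and P a1, P a2 ∈ Q.
The rows b1, b2, b3 of Rᶜ: P b ∉ Q (Q is used by a1, a2) and P b ≠ m.2, so P b ∈ C \ {m.2}; the column P b has at least two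
rows, none in R (h), so another row in Rᶜ. So `blk` applies: P1, equal to P outside the b's, with at most one cell of M in
the rows b. If P1 hits no cell of M in the rows a1, a2: P2 = P1. Otherwise P2 = P1 * swap a1 a2 (allowed, F a1 = F a2 = Q): if
(a1, P1 a1) ∈ M, then (a1, P1 a2) ∉ M (same row) and (a2, P1 a1) ∉ M (same column). So P2 has no cell of M in the rows a1, a2,
at most one in m.1 and at most one in the rows b: hit M P2 ≤ 2 (the filter set is contained in (cells in row m.1) ∪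
(cells in rows b), both of card ≤ 1).
-/

namespace Pool.Agent.MP_dc7d7b.TG

open Finset

/-- the last step: a permutation with few hits -/
private theorem fc_hit {M : Finset (Fin 6 × Fin 6)} {P : Equiv.Perm (Fin 6)} {R : Finset (Fin 6)}
    {m1 a1 a2 b1 b2 b3 : Fin 6} (hR : ∀ r ∈ R, r = m1 ∨ r = a1 ∨ r = a2)
    (hRc : ∀ r, r ∉ R → r = b1 ∨ r = b2 ∨ r = b3) (h1 : (a1, P a1) ∉ M) (h2 : (a2, P a2) ∉ M)
    (hb : ∀ x ∈ M, ∀ y ∈ M, (x.1 = b1 ∨ x.1 = b2 ∨ x.1 = b3) → (y.1 = b1 ∨ y.1 = b2 ∨ y.1 = b3) →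
        P x.1 = x.2 → P y.1 = y.2 → x = y) : hit M P ≤ 2 := by
  classical
  unfold hit
  have hsub : M.filter (fun x => P x.1 = x.2) ⊆
      (M.filter (fun x => P x.1 = x.2 ∧ x.1 = m1)) ∪
        (M.filter (fun x => P x.1 = x.2 ∧ (x.1 = b1 ∨ x.1 = b2 ∨ x.1 = b3))) := by
    intro x hx
    rw [mem_filter] at hx
    rw [mem_union, mem_filter, mem_filter]
    by_cases hxR : x.1 ∈ R
    · rcases hR x.1 hxR with h | h | h
      · exact Or.inl ⟨hx.1, hx.2, h⟩
      · exfalso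
        apply h1
        rw [← h, hx.2]
        exact hx.1
      · exfalso
        apply h2
        rw [← h, hx.2]
        exact hx.1
    · exact Or.inr ⟨hx.1, hx.2, hRc x.1 hxR⟩
  have hA : (M.filter (fun x => P x.1 = x.2 ∧ x.1 = m1)).card ≤ 1 := by
    rw [card_le_one]
    intro x hx y hy
    rw [mem_filter] at hx hy
    have e1 : x.1 = y.1 := hx.2.2.trans hy.2.2.symm
    refine Prod.ext e1 ?_
    rw [← hx.2.1, ← hy.2.1, e1]
  have hB : (M.filter (fun x => P x.1 = x.2 ∧ (x.1 = b1 ∨ x.1 = b2 ∨ x.1 = b3))).card ≤ 1 := by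
    rw [card_le_one]
    intro x hx y hy
    rw [mem_filter] at hx hy
    exact hb x hx.1 y hy.1 hx.2.2 hy.2.2 hx.2.1 hy.2.1
  exact (card_le_card hsub).trans ((card_union_le _ _).trans (by omega))

theorem forced_case {F : Fin 6 → Finset (Fin 6)} (hF : Dg 2 F) (hP : ∃ P : Equiv.Perm (Fin 6), ∀ r, P r ∈ F r)
    {R C : Finset (Fin 6)} (hR : R.card = 3) (hC : C.card = 4) {m : Fin 6 × Fin 6}
    (h : ∀ r ∈ R, ∀ c ∈ C, c ∈ F r → r = m.1 ∧ c = m.2) {M : Finset (Fin 6 × Fin 6)} (hM : Mat M) :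
    ∃ P : Equiv.Perm (Fin 6), (∀ r, P r ∈ F r) ∧ hit M P ≤ 2 := by
  classical
  obtain ⟨P, hP⟩ := hP
  have cCc : Cᶜ.card = 2 := by
    rw [card_compl, Fintype.card_fin, hC]
  have cRc : Rᶜ.card = 3 := by
    rw [card_compl, Fintype.card_fin, hR]
  -- step A
  obtain ⟨r0, hr0, hr0C⟩ : ∃ r ∈ R, P r ∈ C := by
    by_contra hcon
    push Not at hcon
    have h1 : R.image P ⊆ Cᶜ := by
      intro c hc
      obtain ⟨r, hr, rfl⟩ := mem_image.1 hc
      exact mem_compl.2 (hcon r hr)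
    have h2 := card_le_card h1
    rw [card_image_of_injective _ P.injective, hR, cCc] at h2
    omega
  obtain ⟨e1, e2⟩ := h r0 hr0 (P r0) hr0C (hP r0)
  have hm1 : m.1 ∈ R := e1 ▸ hr0
  have hPm : P m.1 = m.2 := by rw [← e1]; exact e2
  -- step B
  have cE : (R.erase m.1).card = 2 := by rw [card_erase_of_mem hm1, hR]
  obtain ⟨a1, a2, ha12, hE⟩ := card_eq_two.1 cE
  have hFa : ∀ a ∈ R.erase m.1, F a = Cᶜ := by
    intro a ha
    rw [mem_erase] at ha
    refine eq_of_subset_of_card_le (fun c hc => ?_) ?_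
    · rw [mem_compl]
      intro hcC
      exact ha.1 (h a ha.2 c hcC hc).1
    · rw [cCc]
      exact hF.row a
  have ha1 : a1 ∈ R.erase m.1 := by rw [hE]; simp
  have ha2 : a2 ∈ R.erase m.1 := by rw [hE]; simp
  have hRa : ∀ r ∈ R, r = m.1 ∨ r = a1 ∨ r = a2 := by
    intro r hr
    by_cases hrm : r = m.1
    · exact Or.inl hrm
    · right
      have h1 : r ∈ R.erase m.1 := mem_erase.2 ⟨hrm, hr⟩
      rw [hE] at h1
      simpa using h1
  -- step C
  obtain ⟨b1, b2, b3, hb12, hb13, hb23, hRc⟩ := card_eq_three.1 cRc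
  have hRb : ∀ r, r ∉ R → r = b1 ∨ r = b2 ∨ r = b3 := by
    intro r hr
    have h1 : r ∈ Rᶜ := mem_compl.2 hr
    rw [hRc] at h1
    simpa using h1
  have hb1 : b1 ∉ R := by
    rw [← mem_compl, hRc]
    simp
  have hb2 : b2 ∉ R := by
    rw [← mem_compl, hRc]
    simp
  have hb3 : b3 ∉ R := by
    rw [← mem_compl, hRc]
    simp
  -- step D
  have himg : (R.erase m.1).image P = Cᶜ := by
    refine eq_of_subset_of_card_le (fun c hc => ?_) ?_
    · obtain ⟨r, hr, rfl⟩ := mem_image.1 hc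
      rw [← hFa r hr]
      exact hP r
    · rw [card_image_of_injective _ P.injective, cE, cCc]
  have hPb : ∀ b, b ∉ R → P b ∈ C ∧ P b ≠ m.2 := by
    intro b hb
    constructor
    · by_contra hc
      rw [← mem_compl, ← himg, mem_image] at hc
      obtain ⟨r', hr', h'⟩ := hc
      rw [P.injective h'] at hr'
      exact hb (mem_of_mem_erase hr')
    · intro hc
      rw [← hPm] at hc
      exact hb ((P.injective hc) ▸ hm1)
  -- step E
  have hoth : ∀ b, b ∉ R → ∃ r, r ∉ R ∧ r ≠ b ∧ P b ∈ F r := by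
    intro b hb
    have h1 := hF.col (P b)
    have h2 : 1 < (TG.tr F (P b)).card := by omega
    obtain ⟨r, hr, hrb⟩ := exists_mem_ne h2 b
    rw [mem_tr] at hr
    refine ⟨r, ?_, hrb, hr⟩
    intro hrR
    exact (hPb b hb).2 (h r hrR (P b) (hPb b hb).1 hr).2
  have k1 : P b1 ∈ F b2 ∨ P b1 ∈ F b3 := by
    obtain ⟨r, hr, hrb, hr'⟩ := hoth b1 hb1
    rcases hRb r hr with h1 | h1 | h1
    · exact absurd h1 hrb
    · exact Or.inl (h1 ▸ hr')
    · exact Or.inr (h1 ▸ hr')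
  have k2 : P b2 ∈ F b1 ∨ P b2 ∈ F b3 := by
    obtain ⟨r, hr, hrb, hr'⟩ := hoth b2 hb2
    rcases hRb r hr with h1 | h1 | h1
    · exact Or.inl (h1 ▸ hr')
    · exact absurd h1 hrb
    · exact Or.inr (h1 ▸ hr')
  have k3 : P b3 ∈ F b1 ∨ P b3 ∈ F b2 := by
    obtain ⟨r, hr, hrb, hr'⟩ := hoth b3 hb3
    rcases hRb r hr with h1 | h1 | h1
    · exact Or.inl (h1 ▸ hr')
    · exact Or.inr (h1 ▸ hr')
    · exact absurd h1 hrb
  -- step F
  obtain ⟨P1, hP1, hP1e, hP1b⟩ := blk hP hb12 hb13 hb23 k1 k2 k3 hM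
  by_cases hcase : (a1, P1 a1) ∈ M ∨ (a2, P1 a2) ∈ M
  · -- swap
    have hne : P1 a1 ≠ P1 a2 := fun hh => ha12 (P1.injective hh)
    have s1 : (P1 * Equiv.swap a1 a2) a1 = P1 a2 := by simp
    have s2 : (P1 * Equiv.swap a1 a2) a2 = P1 a1 := by simp
    have s3 : ∀ r, r ≠ a1 → r ≠ a2 → (P1 * Equiv.swap a1 a2) r = P1 r := by
      intro r h1 h2
      rw [Equiv.Perm.mul_apply, Equiv.swap_apply_of_ne_of_ne h1 h2]
    refine ⟨P1 * Equiv.swap a1 a2, ?_, ?_⟩
    · intro r
      by_cases h1 : r = a1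
      · rw [h1, s1, hFa a1 ha1, ← hFa a2 ha2]
        exact hP1 a2
      · by_cases h2 : r = a2
        · rw [h2, s2, hFa a2 ha2, ← hFa a1 ha1]
          exact hP1 a1
        · rw [s3 r h1 h2]
          exact hP1 r
    · refine fc_hit hRa hRb ?_ ?_ ?_
      · rw [s1]
        intro hc
        rcases hcase with h1 | h1
        · exact (hM _ h1 _ hc (by simpa using hne)).1 rfl
        · exact (hM _ h1 _ hc (by simpa using ha12.symm)).2 rfl
      · rw [s2]
        intro hc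
        rcases hcase with h1 | h1
        · exact (hM _ h1 _ hc (by simpa using ha12)).2 rfl
        · exact (hM _ h1 _ hc (by simpa using hne.symm)).1 rfl
      · intro x hx y hy hxb hyb hPx hPy
        have hba : ∀ z : Fin 6, (z = b1 ∨ z = b2 ∨ z = b3) → z ≠ a1 ∧ z ≠ a2 := by
          intro z hz
          have hzR : z ∉ R := by
            rcases hz with h1 | h1 | h1 <;> rw [h1] <;> assumption
          exact ⟨fun h1 => hzR (h1 ▸ mem_of_mem_erase ha1), fun h1 => hzR (h1 ▸ mem_of_mem_erase ha2)⟩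
        rw [s3 x.1 (hba x.1 hxb).1 (hba x.1 hxb).2] at hPx
        rw [s3 y.1 (hba y.1 hyb).1 (hba y.1 hyb).2] at hPy
        exact hP1b x hx y hy hxb hyb hPx hPy
  · push Not at hcase
    exact ⟨P1, hP1, fc_hit hRa hRb hcase.1 hcase.2 hP1b⟩

end Pool.Agent.MP_dc7d7b.TG
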