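import Pool.Agent.Lib.MP_dc7d7b_co.TG.Defs

set_option autoImplicit false

namespace Pool.Agent.MP_dc7d7b.TG

open Finset

theorem good_of_not_bad (F : Fin 6 → Finset (Fin 6)) (N : Equiv.Perm (Fin 6)) (h : ¬ Bad F N) :
    ∃ P : Equiv.Perm (Fin 6), ∀ r, P r ∈ F r ∧ P r ≠ N r := by
  have hH : ∀ s : Finset (Fin 6), s.card ≤ (s.biUnion fun r => (F r).erase (N r)).card := by
    intro s
    by_contra hc
    rw [not_le] at hc
    apply h
    have h1 : (s.biUnion fun r => (F r).erase (N r))ᶜ.card = 6 - (s.biUnion fun r => (F r).erase (N r)).card := by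
      rw [card_compl, Fintype.card_fin]
    have h2 : (s.biUnion fun r => (F r).erase (N r)).card ≤ 6 := by
      have := card_le_univ (s.biUnion fun r => (F r).erase (N r))
      rwa [Fintype.card_fin] at this
    obtain ⟨C, hC, hC2⟩ := exists_subset_card_eq (show 7 - s.card ≤ (s.biUnion fun r => (F r).erase (N r))ᶜ.card by omega)
    refine ⟨s, C, ?_, ?_⟩
    · have h3 : s.card ≤ 6 := by
        have := card_le_univ s
        rwa [Fintype.card_fin] at this
      omega
    · intro r hr c hc hm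
      by_contra hne
      have h4 := hC hc
      rw [mem_compl] at h4
      exact h4 (mem_biUnion.2 ⟨r, hr, mem_erase.2 ⟨fun k => hne k.symm, hm⟩⟩)
  obtain ⟨f, hf, hf2⟩ := (all_card_le_biUnion_card_iff_exists_injective fun r => (F r).erase (N r)).1 hH
  refine ⟨Equiv.ofBijective f (Finite.injective_iff_bijective.1 hf), fun r => ?_⟩
  have := hf2 r
  rw [mem_erase] at this
  exact ⟨this.2, this.1⟩

/-- A cell in all perfect matchings gives a rectangle. -/
theorem forced (F : Fin 6 → Finset (Fin 6)) (r0 c0 : Fin 6)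
    (h : ∀ P : Equiv.Perm (Fin 6), (∀ r, P r ∈ F r) → P r0 = c0) :
    ∃ R C : Finset (Fin 6), R.card + C.card = 7 ∧ ∀ r ∈ R, ∀ c ∈ C, c ∈ F r → r = r0 ∧ c = c0 := by
  by_contra hno
  have hH : ∀ s : Finset (Fin 6), s.card ≤
      (s.biUnion fun r => (F r).filter (fun c => ¬ (r = r0 ∧ c = c0))).card := by
    intro s
    by_contra hc
    rw [not_le] at hc
    apply hno
    have h1 : (s.biUnion fun r => (F r).filter (fun c => ¬ (r = r0 ∧ c = c0)))ᶜ.card =
        6 - (s.biUnion fun r => (F r).filter (fun c => ¬ (r = r0 ∧ c = c0))).card := by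
      rw [card_compl, Fintype.card_fin]
    obtain ⟨C, hC, hC2⟩ := exists_subset_card_eq
      (show 7 - s.card ≤ (s.biUnion fun r => (F r).filter (fun c => ¬ (r = r0 ∧ c = c0)))ᶜ.card by omega)
    refine ⟨s, C, ?_, ?_⟩
    · have h3 : s.card ≤ 6 := by
        have := card_le_univ s
        rwa [Fintype.card_fin] at this
      omega
    · intro r hr c hc hm
      by_contra hne
      have h4 := hC hc
      rw [mem_compl] at h4
      exact h4 (mem_biUnion.2 ⟨r, hr, mem_filter.2 ⟨hm, hne⟩⟩)
  obtain ⟨f, hf, hf2⟩ := (all_card_le_biUnion_card_iff_exists_injective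
    fun r => (F r).filter (fun c => ¬ (r = r0 ∧ c = c0))).1 hH
  have h5 := h (Equiv.ofBijective f (Finite.injective_iff_bijective.1 hf)) (fun r => (mem_filter.1 (hf2 r)).1)
  exact (mem_filter.1 (hf2 r0)).2 ⟨rfl, h5⟩

end Pool.Agent.MP_dc7d7b.TG
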