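import Pool.Agent.Lib.MP_dc7d7b_co.TG.FC
import Pool.Agent.Lib.MP_dc7d7b_co.TG.Hal

set_option autoImplicit false

/-!
FL (110 lines). If every m ∈ M is avoided by some perfect matching: card M = 4: the right side; card M ≤ 3: if M = ∅ any P
(hit = 0); otherwise take m ∈ M and P avoiding it: hit M P ≤ card M - 1 ≤ 2. Otherwise some m ∈ M is in all perfect matchings:
`forced` (Hal.lean) gives R, C, card R + card C = 7, whose allowed cells are m only. P has a cell in R × C (card R > card Cᶜ), so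
m.1 ∈ R, m.2 ∈ C. If card R = 1 then C = univ and F m.1 ⊆ {m.2}, contradiction to hF.row. So there is another row a ∈ R,
F a ⊆ Cᶜ, card Cᶜ ≥ 2: card C ≤ 4, card R ≥ 3. By columns card R ≤ 4. (3, 4): `forced_case`. (4, 3): `forced_case` for tr F (with P⁻¹),
m.swap and M.image Prod.swap (or M.map), and P⁻¹ of its result (hit is the same number).
-/

namespace Pool.Agent.MP_dc7d7b.TG

open Finset

private theorem card_compl6 (C : Finset (Fin 6)) : Cᶜ.card = 6 - C.card := by
  rw [card_compl, Fintype.card_fin]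

private theorem card_le6 (C : Finset (Fin 6)) : C.card ≤ 6 := by
  have := card_le_univ C
  rwa [Fintype.card_fin] at this

private theorem card_le_four {F : Fin 6 → Finset (Fin 6)} (hF : ∀ r, 2 ≤ (F r).card)
    {R C : Finset (Fin 6)} (hRC : R.card + C.card = 7) {r0 c0 : Fin 6}
    (h : ∀ r ∈ R, ∀ c ∈ C, c ∈ F r → r = r0 ∧ c = c0) : C.card ≤ 4 := by
  by_contra hc
  have hC6 := card_le6 C
  have hcc := card_compl6 C
  have hR1 : ∀ r ∈ R, r = r0 := by
    intro r hr
    by_contra hne
    have hsub : F r ⊆ Cᶜ := by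
      intro c hcF
      rw [mem_compl]
      intro hcC
      exact hne (h r hr c hcC hcF).1
    have h1 := card_le_card hsub
    have h2 := hF r
    omega
  have hRle : R.card ≤ 1 := by
    rw [card_le_one]
    intro a ha b hb
    rw [hR1 a ha, hR1 b hb]
  have hCu : C = univ := by
    rw [← card_eq_iff_eq_univ, Fintype.card_fin]
    omega
  have hRne : R.Nonempty := by
    rw [← card_pos]
    omega
  obtain ⟨r, hr⟩ := hRne
  have hsub : F r ⊆ {c0} := by
    intro c hcF
    rw [mem_singleton]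
    exact (h r hr c (by rw [hCu]; exact mem_univ _) hcF).2
  have h1 := card_le_card hsub
  rw [card_singleton] at h1
  have h2 := hF r
  omega

private theorem app_inv (P : Equiv.Perm (Fin 6)) (c : Fin 6) : P (P⁻¹ c) = c := P.apply_symm_apply c

private theorem hit_swap (M : Finset (Fin 6 × Fin 6)) (P : Equiv.Perm (Fin 6)) :
    hit M P⁻¹ = hit (M.image Prod.swap) P := by
  unfold hit
  rw [filter_image, card_image_of_injective _ Prod.swap_injective]
  congr 1
  apply filter_congr
  rintro ⟨a, b⟩ _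
  simp only [Prod.fst_swap, Prod.snd_swap]
  rw [Equiv.Perm.inv_eq_iff_eq]
  exact eq_comm

theorem flem {F : Fin 6 → Finset (Fin 6)} (hF : Dg 2 F) (hP : ∃ P : Equiv.Perm (Fin 6), ∀ r, P r ∈ F r)
    (M : Finset (Fin 6 × Fin 6)) (hM : Mat M) (h4 : M.card ≤ 4) :
    (∃ P : Equiv.Perm (Fin 6), (∀ r, P r ∈ F r) ∧ hit M P ≤ 2) ∨
      (M.card = 4 ∧ ∀ m ∈ M, ∃ P : Equiv.Perm (Fin 6), (∀ r, P r ∈ F r) ∧ P m.1 ≠ m.2) := by
  by_cases hall : ∀ m ∈ M, ∃ P : Equiv.Perm (Fin 6), (∀ r, P r ∈ F r) ∧ P m.1 ≠ m.2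
  · by_cases hc : M.card = 4
    · exact Or.inr ⟨hc, hall⟩
    · left
      rcases M.eq_empty_or_nonempty with rfl | ⟨m, hm⟩
      · obtain ⟨P, hP⟩ := hP
        exact ⟨P, hP, by simp [hit]⟩
      · obtain ⟨P, hP1, hP2⟩ := hall m hm
        refine ⟨P, hP1, ?_⟩
        have hsub : M.filter (fun x => P x.1 = x.2) ⊆ M.erase m := by
          intro x hx
          rw [mem_filter] at hx
          rw [mem_erase]
          refine ⟨?_, hx.1⟩
          rintro rfl
          exact hP2 hx.2
        have h1 := card_le_card hsub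
        rw [card_erase_of_mem hm] at h1
        unfold hit
        omega
  · left
    push Not at hall
    obtain ⟨m, hm, hforce⟩ := hall
    obtain ⟨R, C, hRC, h⟩ := forced F m.1 m.2 hforce
    obtain ⟨P0, hP0⟩ := hP
    have hC4 := card_le_four hF.row hRC h
    have h' : ∀ c ∈ C, ∀ r ∈ R, r ∈ tr F c → c = m.2 ∧ r = m.1 := by
      intro c hc r hr hrc
      have h1 := h r hr c hc (mem_tr.1 hrc)
      exact ⟨h1.2, h1.1⟩
    have hR4 := card_le_four (F := tr F) hF.tr.row (by omega : C.card + R.card = 7) h'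
    have hcases : (R.card = 3 ∧ C.card = 4) ∨ (R.card = 4 ∧ C.card = 3) := by omega
    rcases hcases with ⟨hR, hC⟩ | ⟨hR, hC⟩
    · exact forced_case hF ⟨P0, hP0⟩ hR hC h hM
    · have hP' : ∃ P : Equiv.Perm (Fin 6), ∀ r, P r ∈ tr F r := by
        refine ⟨P0⁻¹, fun c => ?_⟩
        rw [mem_tr]
        have h1 := hP0 (P0⁻¹ c)
        rwa [app_inv] at h1
      have hM' : Mat (M.image Prod.swap) := by
        intro x hx y hy hxy
        rw [mem_image] at hx hy
        obtain ⟨a, ha, rfl⟩ := hx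
        obtain ⟨b, hb, rfl⟩ := hy
        have hab : a ≠ b := fun h => hxy (by rw [h])
        have h1 := hM a ha b hb hab
        exact ⟨h1.2, h1.1⟩
      obtain ⟨P, hP1, hP2⟩ := forced_case (F := tr F) hF.tr hP' (R := C) (C := R) hC hR
        (m := m.swap) h' hM'
      refine ⟨P⁻¹, fun r => ?_, ?_⟩
      · have h1 := hP1 (P⁻¹ r)
        rw [mem_tr, app_inv] at h1
        exact h1
      · rw [hit_swap]
        exact hP2

end Pool.Agent.MP_dc7d7b.TG
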