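import Pool.Agent.Lib.MP_dc7d7b_co.TG.Defs

set_option autoImplicit false

/-!
FT (150 lines). `fam_deg`: the vertices of (T.erase t).erase u adjacent to u are at most 4 (t is a fifth neighbour of u), so
`forb_deg` and `Deg.mono` (Main.lean) give at most 4 forbidden cells in each row and column; then as in `fam_card` of ../TF/PStep.lean
with 6 for 8. `fam_self`, `refit`, `fit`: f u has no edge to the others; see the end of ../TF/PStep.lean (kv, ku) for the model.
`fit`: g z = P' for z = t, P.trans q for z = u, f z otherwise. Edge (t, P' i) - (u, q (P i)): hq gives q (P' i) = q (P i), P' i = P i.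
-/

namespace Pool.Agent.MP_dc7d7b.TG

open Finset TF

open Classical in
private theorem fam_card6 {k : ℕ} {D : Fin 6 → Fin 6 → Prop} (hD : Deg k D) (π : Equiv.Perm (Fin 6)) :
    (∀ i, 6 - k ≤ (univ.filter (fun c => ¬ D i (π c))).card) ∧
    ∀ c, 6 - k ≤ (tr (fun i => univ.filter (fun c => ¬ D i (π c))) c).card := by
  constructor
  · intro i
    have h1 : (univ.filter (fun c => D i (π c))).card ≤ k := by
      refine le_trans (Finset.card_le_card_of_injOn π ?_ π.injective.injOn) (hD.1 i)
      intro c hc
      simpa using hc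
    have h2 : (univ.filter (fun c => D i (π c))).card + (univ.filter (fun c => ¬ D i (π c))).card = 6 := by
      have := Finset.card_filter_add_card_filter_not (s := (univ : Finset (Fin 6))) (fun c => D i (π c))
      rw [Finset.card_univ, Fintype.card_fin] at this
      exact this
    omega
  · intro c
    have h1 := hD.2 (π c)
    have h2 : (univ.filter (fun i => D i (π c))).card + (tr (fun i => univ.filter (fun c => ¬ D i (π c))) c).card = 6 := by
      have := Finset.card_filter_add_card_filter_not (s := (univ : Finset (Fin 6))) (fun i => D i (π c))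
      rw [Finset.card_univ, Fintype.card_fin] at this
      have h3 : tr (fun i => univ.filter (fun c => ¬ D i (π c))) c = univ.filter (fun i => ¬ D i (π c)) := by
        ext i
        rw [mem_tr]
        simp
      rw [h3]
      exact this
    omega

open Classical in
private theorem of_mem_fam {V : Type} {H : SimpleGraph (V × Fin 6)} {T : Finset V} {t u : V}
    {f : V → Equiv.Perm (Fin 6)} {q : Equiv.Perm (Fin 6)} {i c : Fin 6} (h : c ∈ fam H T t u q f i)
    {z : V} (hz : z ∈ T) (h1 : z ≠ t) (h2 : z ≠ u) (hadj : H.Adj (z, f z i) (u, q c)) : False := by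
  unfold fam at h
  rw [Finset.mem_filter] at h
  exact h.2 ⟨z, Finset.mem_erase.2 ⟨h2, Finset.mem_erase.2 ⟨h1, hz⟩⟩, hadj⟩

theorem fam_deg {V : Type} {G : SimpleGraph V} {H : SimpleGraph (V × Fin 6)} (hH : Cover G H) {T : Finset V} {t u : V}
    (ht : t ∈ T) (htu : G.Adj t u) (hd : dg G T u ≤ 5) (q : Equiv.Perm (Fin 6)) (f : V → Equiv.Perm (Fin 6)) :
    Dg 2 (fam H T t u q f) := by
  classical
  have hW : (((T.erase t).erase u).filter (fun w => G.Adj u w)).card ≤ 4 := by
    have h1 : insert t (((T.erase t).erase u).filter (fun w => G.Adj u w)) ⊆ T.filter (fun w => G.Adj u w) := by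
      intro x hx
      rw [Finset.mem_insert] at hx
      rcases hx with rfl | hx
      · exact Finset.mem_filter.mpr ⟨ht, htu.symm⟩
      · rw [Finset.mem_filter, Finset.mem_erase, Finset.mem_erase] at hx
        exact Finset.mem_filter.mpr ⟨hx.1.2.2, hx.2⟩
    have h2 : (T.filter (fun w => G.Adj u w)).card ≤ 5 := by
      unfold dg at hd
      convert hd
    have h3 := (Finset.card_le_card h1).trans h2
    rw [Finset.card_insert_of_notMem] at h3
    · omega
    · rw [Finset.mem_filter, Finset.mem_erase, Finset.mem_erase]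
      rintro ⟨⟨_, h4, _⟩, _⟩
      exact h4 rfl
  have h5 := fam_card6 ((forb_deg hH ((T.erase t).erase u) f u).mono (show _ ≤ 4 by convert hW)) q
  refine ⟨fun r => ?_, fun c => ?_⟩
  · have h6 := h5.1 r
    unfold fam
    convert h6
  · have h6 := h5.2 c
    unfold fam
    convert h6

open Classical in
theorem fam_self {V : Type} {H : SimpleGraph (V × Fin 6)} {T : Finset V} {t u : V} {f : V → Equiv.Perm (Fin 6)}
    (hf : Pk H (T.erase t) f) (hu : u ∈ T) (hne : u ≠ t) (q : Equiv.Perm (Fin 6)) :
    ∀ i, ((f u).trans q.symm) i ∈ fam H T t u q f i := by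
  intro i
  unfold fam
  rw [Finset.mem_filter]
  refine ⟨Finset.mem_univ _, ?_⟩
  rintro ⟨x, hx, hadj⟩
  rw [Finset.mem_erase, Finset.mem_erase] at hx
  rw [Equiv.trans_apply, Equiv.apply_symm_apply] at hadj
  exact hf i x (Finset.mem_erase.2 hx.2) u (Finset.mem_erase.2 ⟨hne, hu⟩) hadj

open Classical in
theorem refit {V : Type} {G : SimpleGraph V} {H : SimpleGraph (V × Fin 6)} (hH : Cover G H) {T : Finset V} {t u : V}
    {f : V → Equiv.Perm (Fin 6)} (hf : Pk H (T.erase t) f) {q P : Equiv.Perm (Fin 6)}
    (hP : ∀ i, P i ∈ fam H T t u q f i) : Pk H (T.erase t) (Function.update f u (P.trans q)) := by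
  have hu : ∀ i, Function.update f u (P.trans q) u i = q (P i) := by
    intro i
    rw [Function.update_self]
    rfl
  have hz : ∀ z, z ≠ u → Function.update f u (P.trans q) z = f z := by
    intro z hz
    rw [Function.update_of_ne hz]
  intro i x hx y hy hadj
  by_cases hxu : x = u
  · subst hxu
    by_cases hyu : y = x
    · subst hyu
      exact hH.fib _ _ _ hadj
    · rw [hu, hz y hyu] at hadj
      exact of_mem_fam (hP i) (Finset.mem_erase.1 hy).2 (Finset.mem_erase.1 hy).1 hyu hadj.symm
  · by_cases hyu : y = u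
    · subst hyu
      rw [hu, hz x hxu] at hadj
      exact of_mem_fam (hP i) (Finset.mem_erase.1 hx).2 (Finset.mem_erase.1 hx).1 hxu hadj
    · rw [hz x hxu, hz y hyu] at hadj
      exact hf i x hx y hy hadj

open Classical in
theorem fit {V : Type} {G : SimpleGraph V} {H : SimpleGraph (V × Fin 6)} (hH : Cover G H) {T : Finset V} {t u : V}
    (hne : u ≠ t) {f : V → Equiv.Perm (Fin 6)} (hf : Pk H (T.erase t) f) {q P P' : Equiv.Perm (Fin 6)}
    (hq : ∀ a b, H.Adj (t, a) (u, b) → q a = b) (hP : ∀ i, P i ∈ fam H T t u q f i) (hPP : ∀ i, P' i ≠ P i)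
    (hP' : ∀ i, ∀ z ∈ T, z ≠ t → z ≠ u → ¬ H.Adj (t, P' i) (z, f z i)) :
    ∃ g : V → Equiv.Perm (Fin 6), Pk H T g ∧ ∀ z, z ≠ t → z ≠ u → g z = f z := by
  let g : V → Equiv.Perm (Fin 6) := fun x => if x = t then P' else if x = u then P.trans q else f x
  have gt : g t = P' := by simp [g]
  have gu : ∀ i, g u i = q (P i) := by
    intro i
    simp [g, hne]
  have gW : ∀ x, x ≠ t → x ≠ u → g x = f x := by
    intro x h1 h2
    simp [g, h1, h2]
  have kt : ∀ i, ∀ y ∈ T, ¬ H.Adj (t, g t i) (y, g y i) := by
    intro i y hy hadj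
    by_cases hyt : y = t
    · subst hyt
      exact hH.fib _ _ _ hadj
    · by_cases hyu : y = u
      · subst hyu
        rw [gt, gu] at hadj
        exact hPP i (q.injective (hq _ _ hadj))
      · rw [gt, gW y hyt hyu] at hadj
        exact hP' i y hy hyt hyu hadj
  have ku : ∀ i, ∀ y ∈ T, y ≠ t → ¬ H.Adj (u, g u i) (y, g y i) := by
    intro i y hy hyt hadj
    by_cases hyu : y = u
    · subst hyu
      exact hH.fib _ _ _ hadj
    · rw [gu, gW y hyt hyu] at hadj
      exact of_mem_fam (hP i) hy hyt hyu hadj.symm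
  refine ⟨g, ?_, gW⟩
  intro i x hx y hy hadj
  by_cases hxt : x = t
  · subst hxt
    exact kt i y hy hadj
  · by_cases hyt : y = t
    · subst hyt
      exact kt i x hx hadj.symm
    · by_cases hxu : x = u
      · subst hxu
        exact ku i y hy hyt hadj
      · by_cases hyu : y = u
        · subst hyu
          exact ku i x hx hxt hadj.symm
        · rw [gW x hxt hxu, gW y hyt hyu] at hadj
          exact hf i x (Finset.mem_erase.mpr ⟨hxt, hx⟩) y (Finset.mem_erase.mpr ⟨hyt, hy⟩) hadj

end Pool.Agent.MP_dc7d7b.TG
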