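import Pool.Agent.Lib.MP_dc7d7b_co.TG.Defs

set_option autoImplicit false

/-!
LT (90 lines). `co_deg`: a row has at most three excluded cells A r, B r, D r; a column c at most three, A⁻¹ c, B⁻¹ c, D⁻¹ c.
`lat`: R, C from `Full`. Let r ∈ R. Every c ∈ C is A r, B r or D r or (r, c) ∈ M (Full, mem_co), and M has at most one cell in row r
(Mat). So C ⊆ {A r, B r, D r} ∪ {c | (r, c) ∈ M}, card 4 ≤ 3 + 1: if A r, B r, D r were not different, or one of them not in C,
or M had no cell in the row r, or its column were A r, B r or D r, then card C ≤ 3. (M.card = 4 is not needed.)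
-/

namespace Pool.Agent.MP_dc7d7b.TG

open Finset

private theorem c3 (x y z : Fin 6) : ({x, y, z} : Finset (Fin 6)).card ≤ 3 := Finset.card_le_three

private theorem csd (x y z : Fin 6) : 3 ≤ (univ \ ({x, y, z} : Finset (Fin 6))).card := by
  have h1 := c3 x y z
  have h2 := Finset.le_card_sdiff ({x, y, z} : Finset (Fin 6)) univ
  rw [Finset.card_univ, Fintype.card_fin] at h2
  omega

private theorem core {A B D : Equiv.Perm (Fin 6)} {M : Finset (Fin 6 × Fin 6)} (hM : Mat M)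
    {C : Finset (Fin 6)} (hC : C.card = 4) (r : Fin 6)
    (h : ∀ c ∈ C, c ∈ co A B D r → (r, c) ∈ M) :
    ({A r, B r, D r} : Finset (Fin 6)) ⊆ C ∧ ({A r, B r, D r} : Finset (Fin 6)).card = 3 ∧
      ∃ c ∈ C, (r, c) ∈ M ∧ c ≠ A r ∧ c ≠ B r ∧ c ≠ D r := by
  have h1 := c3 (A r) (B r) (D r)
  have hmem : ∀ c ∈ C \ ({A r, B r, D r} : Finset (Fin 6)),
      (r, c) ∈ M ∧ c ≠ A r ∧ c ≠ B r ∧ c ≠ D r := by
    intro c hc
    rw [Finset.mem_sdiff] at hc
    have hc2 : c ≠ A r ∧ c ≠ B r ∧ c ≠ D r := by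
      refine ⟨fun e => hc.2 ?_, fun e => hc.2 ?_, fun e => hc.2 ?_⟩ <;> simp [e]
    exact ⟨h c hc.1 (mem_co.2 hc2), hc2⟩
  have h2 : (C \ ({A r, B r, D r} : Finset (Fin 6))).card ≤ 1 := by
    rw [Finset.card_le_one]
    intro c hc d hd
    by_contra hne
    exact (hM (r, c) (hmem c hc).1 (r, d) (hmem d hd).1 (fun e => hne (Prod.mk.inj e).2)).1 rfl
  have h3 := Finset.card_sdiff_add_card_inter C ({A r, B r, D r} : Finset (Fin 6))
  have h4 : (C ∩ ({A r, B r, D r} : Finset (Fin 6))).card ≤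
      ({A r, B r, D r} : Finset (Fin 6)).card := Finset.card_le_card Finset.inter_subset_right
  refine ⟨?_, by omega, ?_⟩
  · have h5 : C ∩ ({A r, B r, D r} : Finset (Fin 6)) = {A r, B r, D r} :=
      Finset.eq_of_subset_of_card_le Finset.inter_subset_right (by omega)
    rw [← h5]
    exact Finset.inter_subset_left
  · have h6 : (C \ ({A r, B r, D r} : Finset (Fin 6))).Nonempty := by
      rw [← Finset.card_pos]
      omega
    obtain ⟨c, hc⟩ := h6
    exact ⟨c, (Finset.mem_sdiff.1 hc).1, hmem c hc⟩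

theorem co_deg (A B D : Equiv.Perm (Fin 6)) : Dg 3 (co A B D) := by
  refine ⟨fun r => ?_, fun c => ?_⟩
  · refine (csd (A r) (B r) (D r)).trans (Finset.card_le_card fun x hx => ?_)
    rw [mem_co]
    rw [Finset.mem_sdiff] at hx
    refine ⟨fun e => hx.2 ?_, fun e => hx.2 ?_, fun e => hx.2 ?_⟩ <;> simp [e]
  · refine (csd (A.symm c) (B.symm c) (D.symm c)).trans (Finset.card_le_card fun x hx => ?_)
    rw [mem_tr, mem_co]
    rw [Finset.mem_sdiff] at hx
    refine ⟨fun e => hx.2 ?_, fun e => hx.2 ?_, fun e => hx.2 ?_⟩ <;> simp [e]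

theorem lat {A B D : Equiv.Perm (Fin 6)} {M : Finset (Fin 6 × Fin 6)} (hM : Mat M) (hF : Full (co A B D) M) :
    ∃ R C : Finset (Fin 6), R.card = 4 ∧ C.card = 4 ∧ (∀ x ∈ M, x.1 ∈ R ∧ x.2 ∈ C) ∧
      (∀ r ∈ R, A r ∈ C ∧ B r ∈ C ∧ D r ∈ C ∧ A r ≠ B r ∧ A r ≠ D r ∧ B r ≠ D r) ∧
      ∀ r ∈ R, ∃ c ∈ C, (r, c) ∈ M ∧ c ≠ A r ∧ c ≠ B r ∧ c ≠ D r := by
  obtain ⟨R, C, hR, hC, hRC, hfull⟩ := hF
  refine ⟨R, C, hR, hC, hRC, fun r hr => ?_, fun r hr => ?_⟩
  · obtain ⟨h1, h2, -⟩ := core hM hC r (hfull r hr)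
    refine ⟨h1 (by simp), h1 (by simp), h1 (by simp), fun e => ?_, fun e => ?_, fun e => ?_⟩
    · have h3 : ({A r, B r, D r} : Finset (Fin 6)) = {B r, D r} := by rw [e]; simp
      rw [h3] at h2
      have := Finset.card_le_two (a := B r) (b := D r)
      omega
    · have h3 : ({A r, B r, D r} : Finset (Fin 6)) = {D r, B r} := by
        rw [e]; ext x; simp [or_comm]
      rw [h3] at h2
      have := Finset.card_le_two (a := D r) (b := B r)
      omega
    · have h3 : ({A r, B r, D r} : Finset (Fin 6)) = {A r, D r} := by rw [e]; simp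
      rw [h3] at h2
      have := Finset.card_le_two (a := A r) (b := D r)
      omega
  · exact (core hM hC r (hfull r hr)).2.2

end Pool.Agent.MP_dc7d7b.TG
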