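import Pool.Agent.Lib.MP_dc7d7b_co.TG.EL
import Pool.Agent.Lib.MP_dc7d7b_co.TG.FL

set_option autoImplicit false

/-!
PL (50 lines). M from `elem`. `flem`: either P with hit M P ≤ 2: not bad, `good_of_not_bad E P`: left side. Or card M = 4 and every
m ∈ M is avoided by some perfect matching of F. Last clause of `elem`: if some m ∈ M is in all bad N, take P avoiding m:
P is not bad, `good_of_not_bad`. If Full E M: if some P ∈ F has hit M P ≤ 2, as before; otherwise the right side.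
-/

namespace Pool.Agent.MP_dc7d7b.TG

open Finset

theorem pair23 {F E : Fin 6 → Finset (Fin 6)} (hF : Dg 2 F) (hP : ∃ P : Equiv.Perm (Fin 6), ∀ r, P r ∈ F r)
    (hE : Dg 3 E) :
    (∃ P P' : Equiv.Perm (Fin 6), (∀ r, P r ∈ F r) ∧ ∀ r, P' r ∈ E r ∧ P' r ≠ P r) ∨
      ∃ M : Finset (Fin 6 × Fin 6), Mat M ∧ M.card = 4 ∧ Full E M ∧
        (∀ P : Equiv.Perm (Fin 6), (∀ r, P r ∈ F r) → 3 ≤ hit M P) ∧
        ∀ m ∈ M, ∃ P : Equiv.Perm (Fin 6), (∀ r, P r ∈ F r) ∧ P m.1 ≠ m.2 := by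
  obtain ⟨M, hM, h4, hbad, hlast⟩ := elem hE
  have key : ∀ P : Equiv.Perm (Fin 6), (∀ r, P r ∈ F r) → ¬ Bad E P →
      ∃ P P' : Equiv.Perm (Fin 6), (∀ r, P r ∈ F r) ∧ ∀ r, P' r ∈ E r ∧ P' r ≠ P r := by
    intro P h1 h2
    obtain ⟨P', hP'⟩ := good_of_not_bad E P h2
    exact ⟨P, P', h1, hP'⟩
  rcases flem hF hP M hM h4 with ⟨P, h1, h2⟩ | ⟨hc, hav⟩
  · refine Or.inl (key P h1 fun hb => ?_)
    have h3 := hbad P hb
    omega
  · rcases hlast hc with hfull | ⟨m, hm, hN⟩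
    · by_cases hx : ∃ P : Equiv.Perm (Fin 6), (∀ r, P r ∈ F r) ∧ hit M P ≤ 2
      · obtain ⟨P, h1, h2⟩ := hx
        refine Or.inl (key P h1 fun hb => ?_)
        have h3 := hbad P hb
        omega
      · refine Or.inr ⟨M, hM, hc, hfull, fun P h => ?_, hav⟩
        by_contra h5
        exact hx ⟨P, h, by omega⟩
    · obtain ⟨P, h1, h2⟩ := hav m hm
      exact Or.inl (key P h1 fun hb => h2 (hN P hb))

end Pool.Agent.MP_dc7d7b.TG
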