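import Pool.Agent.Lib.MP_dc7d7b_co.TG.XA

set_option autoImplicit false

/-!
XC (150 lines). `same` gives R, C. P3 and P4 map R onto C, so Rᶜ (two rows) onto Cᶜ. M' consists of the cells (r, P1 r), r ∈ R.
hit M' P1' = 3: P1' r = P1 r for all r ∈ R except one, r0 (M' has 4 cells, one for each r ∈ R), and P1' r0 ≠ P1 r0. P1' r0 ∉ C: C is the
image of R under P1, so P1' r0 ∈ C would be P1 r = P1' r with r ≠ r0. So: P1' r0 ∉ C, and P1' r ∈ C for all other r ∈ R.
`lat` for M'' (A = P1', B = P3, D = P4) gives R'', C'', both of card 4. P3 maps R'' onto C''. Let s = card (R'' \ R) ≤ 2.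
s = 0: R'' = R, C'' = P3 (R) = C, but P1' r0 ∉ C. s = 1: R'' \ R = {a}: P3 and P4 map R'' onto C'' and R onto C, so R'' \ R onto C'' \ C:
P3 a = P4 a, contradiction to `lat`. s = 2: card (R'' ∩ R) = 2, and C'' \ C = Cᶜ (two elements), C'' ∩ C = P3 (R'' ∩ R) = P4 (R'' ∩ R) has two
elements, so for r ∈ R'' ∩ R: C'' ∩ C = {P3 r, P4 r}, so P1' r (in C'', different from P3 r, P4 r) is not in C; this holds for two rows
of R, but it is only true for r0.
-/

namespace Pool.Agent.MP_dc7d7b.TG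

open Finset

private theorem img {P : Equiv.Perm (Fin 6)} {R C : Finset (Fin 6)} (h : ∀ r ∈ R, P r ∈ C)
    (hc : C.card = R.card) (x : Fin 6) : P x ∈ C ↔ x ∈ R := by
  constructor
  · intro hx
    have h1 : R.image P = C := by
      apply eq_of_subset_of_card_le
      · intro y hy
        obtain ⟨r, hr, rfl⟩ := mem_image.1 hy
        exact h r hr
      · rw [card_image_of_injective _ P.injective, hc]
    rw [← h1, mem_image] at hx
    obtain ⟨r, hr, hrx⟩ := hx
    rwa [← P.injective hrx]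
  · exact h x

theorem exc {P1 P2 P3 P4 P1' : Equiv.Perm (Fin 6)} {M M' M'' : Finset (Fin 6 × Fin 6)} (hM : Mat M)
    (h1 : Full (co P1 P3 P4) M) (h1h : 3 ≤ hit M P2) (hM' : Mat M') (h2 : Full (co P2 P3 P4) M')
    (h3 : hit M' P1' = 3) (hM'' : Mat M'') (h4 : Full (co P1' P3 P4) M'') : False := by
  obtain ⟨R, C, hR, hC, hMR, hall⟩ := same hM h1 h1h hM' h2
  obtain ⟨R2, C2, hR2, hC2, -, hl, -⟩ := lat hM'' h4
  have hx : ∀ x ∈ M', x = (x.1, P1 x.1) := by
    intro x hx
    by_contra hne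
    exact (hM' x hx _ (hall x.1 (hMR x hx)).2.2.2 hne).1 rfl
  have hS : (R.filter (fun r => P1' r = P1 r)).card = 3 := by
    have h5 : M'.filter (fun x => P1' x.1 = x.2) =
        (R.filter (fun r => P1' r = P1 r)).image (fun r => (r, P1 r)) := by
      ext x
      rw [mem_filter, mem_image]
      constructor
      · rintro ⟨hxM, hxe⟩
        have e := hx x hxM
        have e2 : x.2 = P1 x.1 := congrArg Prod.snd e
        exact ⟨x.1, mem_filter.2 ⟨hMR x hxM, by rw [hxe, e2]⟩, e.symm⟩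
      · rintro ⟨r, hr, rfl⟩
        rw [mem_filter] at hr
        exact ⟨(hall r hr.1).2.2.2, hr.2⟩
    unfold hit at h3
    rw [h5, card_image_of_injective _ (fun a b hab => congrArg Prod.fst hab)] at h3
    exact h3
  have hN : (R.filter (fun r => ¬ P1' r = P1 r)).card = 1 := by
    have h5 := card_filter_add_card_filter_not (s := R) (fun r => P1' r = P1 r)
    omega
  obtain ⟨r0, hr0⟩ := card_eq_one.1 hN
  have hr0m : r0 ∈ R ∧ ¬ P1' r0 = P1 r0 := by
    have h5 : r0 ∈ R.filter (fun r => ¬ P1' r = P1 r) := by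
      rw [hr0]
      exact mem_singleton_self _
    exact mem_filter.1 h5
  have hother : ∀ r ∈ R, r ≠ r0 → P1' r = P1 r := by
    intro r hr hne
    by_contra h
    have h5 : r ∈ R.filter (fun r => ¬ P1' r = P1 r) := mem_filter.2 ⟨hr, h⟩
    rw [hr0, mem_singleton] at h5
    exact hne h5
  have i1 := img (P := P1) (fun r hr => (hall r hr).2.2.1) (hC.trans hR.symm)
  have i3 := img (P := P3) (fun r hr => (hall r hr).1) (hC.trans hR.symm)
  have i4 := img (P := P4) (fun r hr => (hall r hr).2.1) (hC.trans hR.symm)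
  have j1 := img (P := P1') (fun r hr => (hl r hr).1) (hC2.trans hR2.symm)
  have j3 := img (P := P3) (fun r hr => (hl r hr).2.1) (hC2.trans hR2.symm)
  have j4 := img (P := P4) (fun r hr => (hl r hr).2.2.1) (hC2.trans hR2.symm)
  have hn0 : P1' r0 ∉ C := by
    intro hc
    have hy : P1 (P1⁻¹ (P1' r0)) = P1' r0 := P1.apply_symm_apply _
    have hyR : P1⁻¹ (P1' r0) ∈ R := by
      rw [← i1, hy]
      exact hc
    by_cases hy0 : P1⁻¹ (P1' r0) = r0
    · rw [hy0] at hy
      exact hr0m.2 hy.symm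
    · have h5 := hother _ hyR hy0
      rw [hy] at h5
      exact hy0 (P1'.injective h5)
  have hD : (C2 ∩ C).card = (R2 ∩ R).card := by
    have h5 : (R2 ∩ R).image P3 = C2 ∩ C := by
      ext c
      rw [mem_image, mem_inter]
      constructor
      · rintro ⟨r, hr, rfl⟩
        rw [mem_inter] at hr
        exact ⟨(j3 r).2 hr.1, (i3 r).2 hr.2⟩
      · rintro ⟨h5, h6⟩
        have e : P3 (P3⁻¹ c) = c := P3.apply_symm_apply c
        exact ⟨P3⁻¹ c, mem_inter.2 ⟨(j3 _).1 (by rw [e]; exact h5),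
          (i3 _).1 (by rw [e]; exact h6)⟩, e⟩
    rw [← h5, card_image_of_injective _ P3.injective]
  have c1 : (R2 ∩ R).card + (R2 \ R).card = R2.card := card_inter_add_card_sdiff R2 R
  have c2 : (C2 ∩ C).card + (C2 \ C).card = C2.card := card_inter_add_card_sdiff C2 C
  have c3 : (R ∩ R2).card + (R \ R2).card = R.card := card_inter_add_card_sdiff R R2
  rw [inter_comm R R2] at c3
  have c4 : (R2 \ R).card ≤ 2 := by
    have h5 : R2 \ R ⊆ Rᶜ := by
      intro x hx
      rw [mem_compl]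
      exact (mem_sdiff.1 hx).2
    have h6 := card_le_card h5
    rw [card_compl, Fintype.card_fin] at h6
    omega
  have hcases : (R2 ∩ R).card = 4 ∨ (R2 ∩ R).card = 3 ∨ (R2 ∩ R).card = 2 := by omega
  rcases hcases with ht | ht | ht
  · have h5 : R \ R2 = ∅ := card_eq_zero.1 (by omega)
    have h6 : C2 \ C = ∅ := card_eq_zero.1 (by omega)
    rw [sdiff_eq_empty_iff_subset] at h5 h6
    exact hn0 (h6 ((j1 r0).2 (h5 hr0m.1)))
  · have h5 : (R2 \ R).Nonempty := card_pos.1 (by omega)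
    obtain ⟨a, ha⟩ := h5
    rw [mem_sdiff] at ha
    have h6 : ({P3 a, P4 a} : Finset (Fin 6)) ⊆ C2 \ C := by
      intro c hc
      rw [mem_insert, mem_singleton] at hc
      rw [mem_sdiff]
      rcases hc with rfl | rfl
      · exact ⟨(j3 a).2 ha.1, fun h => ha.2 ((i3 a).1 h)⟩
      · exact ⟨(j4 a).2 ha.1, fun h => ha.2 ((i4 a).1 h)⟩
    have h7 := card_le_card h6
    rw [card_pair (hl a ha.1).2.2.2.2.2] at h7
    omega
  · have h5 : ((R2 ∩ R).erase r0).Nonempty := by
      rw [← card_pos]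
      have h6 := pred_card_le_card_erase (a := r0) (s := R2 ∩ R)
      omega
    obtain ⟨r, hr⟩ := h5
    rw [mem_erase, mem_inter] at hr
    obtain ⟨hrne, hrR2, hrR⟩ := hr
    have hlr := hl r hrR2
    have h6 : ({P1' r, P3 r, P4 r} : Finset (Fin 6)) ⊆ C2 ∩ C := by
      intro c hc
      rw [mem_insert, mem_insert, mem_singleton] at hc
      rw [mem_inter]
      rcases hc with rfl | rfl | rfl
      · refine ⟨hlr.1, ?_⟩
        rw [hother r hrR hrne]
        exact (i1 r).2 hrR
      · exact ⟨hlr.2.1, (i3 r).2 hrR⟩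
      · exact ⟨hlr.2.2.1, (i4 r).2 hrR⟩
    have h7 := card_le_card h6
    rw [card_eq_three.2 ⟨_, _, _, hlr.2.2.2.1, hlr.2.2.2.2.1, hlr.2.2.2.2.2, rfl⟩] at h7
    omega

end Pool.Agent.MP_dc7d7b.TG
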