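import Pool.Agent.Lib.MP_dc7d7b_co.TG.PL
import Pool.Agent.Lib.MP_dc7d7b_co.TG.XC
import Pool.Agent.Lib.MP_dc7d7b_co.TG.FT

set_option autoImplicit false

/-!
# The step: colour `t`, changing only `t` and two neighbours

`P1`, `P2`: the cells forbidden at `t` by the neighbours `u1`, `u2`; the other neighbours forbid only cells of `P3`, `P4`.
(A) the pair lemma for `u2` and `t` (allowed at `t`: the complement of `P1`, `P3`, `P4`). (B) the pair lemma for `u1` and `t`.
(C) if both are exceptional, `u1` is moved to a matching `P1'` which hits the second exceptional set exactly three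
times, and the pair lemma for `u2` and `t` is applied again; it is not exceptional by `exc`.
-/

namespace Pool.Agent.MP_dc7d7b.TG

open Finset TF

private theorem hit_avoid {M : Finset (Fin 6 × Fin 6)} {P : Equiv.Perm (Fin 6)} (h4 : M.card = 4) {m : Fin 6 × Fin 6}
    (hm : m ∈ M) (h : P m.1 ≠ m.2) (h3 : 3 ≤ hit M P) : hit M P = 3 := by
  have h1 : M.filter (fun x => P x.1 = x.2) ⊆ M.erase m := by
    intro x hx
    rw [mem_filter] at hx
    refine mem_erase.2 ⟨?_, hx.1⟩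
    rintro rfl
    exact h hx.2
  have h2 := card_le_card h1
  rw [card_erase_of_mem hm, h4] at h2
  unfold hit at h3 ⊢
  omega

open Classical in
theorem step {V : Type} {G : SimpleGraph V} {H : SimpleGraph (V × Fin 6)} (hH : Cover G H)
    (hdeg : ∀ (T : Finset V) (v : V), dg G T v ≤ 5) {T : Finset V} {t u1 u2 : V} (ht : t ∈ T) (h1 : u1 ∈ T) (h2 : u2 ∈ T)
    (h12 : u1 ≠ u2) (a1 : G.Adj t u1) (a2 : G.Adj t u2) {f : V → Equiv.Perm (Fin 6)} (hf : Pk H (T.erase t) f)
    (P3 P4 : Equiv.Perm (Fin 6))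
    (h34 : ∀ i c, ∀ z ∈ T, z ≠ t → z ≠ u1 → z ≠ u2 → H.Adj (t, c) (z, f z i) → c = P3 i ∨ c = P4 i) :
    ∃ g : V → Equiv.Perm (Fin 6), Pk H T g ∧ ∀ z, z ≠ t → z ≠ u1 → z ≠ u2 → g z = f z := by
  have n1 : u1 ≠ t := fun h => by
    subst h
    exact G.loopless.irrefl _ a1
  have n2 : u2 ≠ t := fun h => by
    subst h
    exact G.loopless.irrefl _ a2
  have hex : ∀ u : V, ∃ π : Equiv.Perm (Fin 6), ∀ a b, H.Adj (t, a) (u, b) → π a = b := fun u =>
    exists_extend (fun a b => H.Adj (t, a) (u, b)) (fun a b b' h h' => hH.mat _ _ _ _ _ h h')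
      (fun a a' b h h' => hH.mat _ _ _ _ _ h.symm h'.symm)
  obtain ⟨q1, hq1⟩ := hex u1
  obtain ⟨q2, hq2⟩ := hex u2
  have key1 : ∀ (f' : V → Equiv.Perm (Fin 6)) i c, H.Adj (t, c) (u1, f' u1 i) → c = ((f' u1).trans q1.symm) i := by
    intro f' i c h
    rw [Equiv.trans_apply, ← hq1 _ _ h, Equiv.symm_apply_apply]
  have key2 : ∀ i c, H.Adj (t, c) (u2, f u2 i) → c = ((f u2).trans q2.symm) i := by
    intro i c h
    rw [Equiv.trans_apply, ← hq2 _ _ h, Equiv.symm_apply_apply]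
  -- (A)
  rcases pair23 (fam_deg hH ht a2 (hdeg T u2) q2 f) ⟨_, fam_self hf h2 n2 q2⟩
      (co_deg ((f u1).trans q1.symm) P3 P4) with ⟨P, P', hP, hP'⟩ | ⟨M, hM, hMc, hMF, hMh, -⟩
  · obtain ⟨g, hg, hg'⟩ := fit hH n2 hf hq2 hP (fun i => (hP' i).2) (by
      intro i z hz hzt hz2 hadj
      have hc := mem_co.1 (hP' i).1
      by_cases hz1 : z = u1
      · subst hz1
        exact hc.1 (key1 f i _ hadj)
      · rcases h34 i _ z hz hzt hz1 hz2 hadj with h | h
        · exact hc.2.1 h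
        · exact hc.2.2 h)
    exact ⟨g, hg, fun z h _ h' => hg' z h h'⟩
  have hM2 := hMh _ (fam_self hf h2 n2 q2)
  -- (B)
  rcases pair23 (fam_deg hH ht a1 (hdeg T u1) q1 f) ⟨_, fam_self hf h1 n1 q1⟩
      (co_deg ((f u2).trans q2.symm) P3 P4) with ⟨P, P', hP, hP'⟩ | ⟨M', hM', hMc', hMF', hMh', hMa'⟩
  · obtain ⟨g, hg, hg'⟩ := fit hH n1 hf hq1 hP (fun i => (hP' i).2) (by
      intro i z hz hzt hz1 hadj
      have hc := mem_co.1 (hP' i).1
      by_cases hz2 : z = u2
      · subst hz2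
        exact hc.1 (key2 i _ hadj)
      · rcases h34 i _ z hz hzt hz1 hz2 hadj with h | h
        · exact hc.2.1 h
        · exact hc.2.2 h)
    exact ⟨g, hg, fun z h h' _ => hg' z h h'⟩
  -- (C)
  obtain ⟨m, hm⟩ : M'.Nonempty := by
    rw [← card_pos, hMc']
    norm_num
  obtain ⟨P1', hP1, hP1m⟩ := hMa' m hm
  have h3 : hit M' P1' = 3 := hit_avoid hMc' hm hP1m (hMh' P1' hP1)
  have hf' := refit hH hf hP1
  set f' := Function.update f u1 (P1'.trans q1) with hf'def
  have e1 : (f' u1).trans q1.symm = P1' := by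
    rw [hf'def, Function.update_self]
    ext i
    simp
  have e2 : f' u2 = f u2 := by
    rw [hf'def, Function.update_of_ne h12.symm]
  have ez : ∀ z, z ≠ u1 → f' z = f z := fun z hz => by
    rw [hf'def, Function.update_of_ne hz]
  rcases pair23 (fam_deg hH ht a2 (hdeg T u2) q2 f') ⟨_, fam_self hf' h2 n2 q2⟩
      (co_deg P1' P3 P4) with ⟨P, P', hP, hP'⟩ | ⟨M'', hM'', hMc'', hMF'', hMh'', -⟩
  · obtain ⟨g, hg, hg'⟩ := fit hH n2 hf' hq2 hP (fun i => (hP' i).2) (by
      intro i z hz hzt hz2 hadj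
      have hc := mem_co.1 (hP' i).1
      by_cases hz1 : z = u1
      · subst hz1
        have := key1 f' i _ hadj
        rw [e1] at this
        exact hc.1 this
      · rw [ez z hz1] at hadj
        rcases h34 i _ z hz hzt hz1 hz2 hadj with h | h
        · exact hc.2.1 h
        · exact hc.2.2 h)
    exact ⟨g, hg, fun z h h' h'' => (hg' z h h'').trans (ez z h')⟩
  · exact (exc hM hMF hM2 hM' hMF' h3 hM'' hMF'').elim

end Pool.Agent.MP_dc7d7b.TG
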