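import Pool.Agent.Lib.MP_dc7d7b_co.TG.ST

set_option autoImplicit false

/-!
X4 (70 lines). q z for every z: `exists_extend` (Main.lean; see the start of `brooks_step` in ../TF/Bro.lean for the call), with
H.Adj (t, a) (z, b) → q z a = b. The neighbours of t in T other than u1, u2 are a set W of card ≤ 2 (dg G T t ≤ 4, u1 ≠ u2 both
neighbours in T): W ⊆ {z3, z4} for some z3, z4 (if W is empty take z3 = z4 = u1, say). P3 = (f z3).trans (q z3).symm, P4 the same for
z4. If z ∈ T, z ≠ t, u1, u2 and H.Adj (t, c) (z, f z i) then G.Adj t z (hH.edge), z ∈ W, z = z3 or z4, q z c = f z i, c = P3 i or P4 i. `step`.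
-/

namespace Pool.Agent.MP_dc7d7b.TG

open Finset TF

open Classical in
theorem ext_four {V : Type} {G : SimpleGraph V} {H : SimpleGraph (V × Fin 6)} (hH : Cover G H)
    (hdeg : ∀ (T : Finset V) (v : V), dg G T v ≤ 5) {T : Finset V} {t u1 u2 : V} (ht : t ∈ T) (h1 : u1 ∈ T) (h2 : u2 ∈ T)
    (h12 : u1 ≠ u2) (a1 : G.Adj t u1) (a2 : G.Adj t u2) (h4 : dg G T t ≤ 4) {f : V → Equiv.Perm (Fin 6)}
    (hf : Pk H (T.erase t) f) :
    ∃ g : V → Equiv.Perm (Fin 6), Pk H T g ∧ ∀ z, z ≠ t → z ≠ u1 → z ≠ u2 → g z = f z := by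
  have hqex : ∀ z : V, ∃ q : Equiv.Perm (Fin 6), ∀ a b, H.Adj (t, a) (z, b) → q a = b := fun z =>
    exists_extend (fun a b => H.Adj (t, a) (z, b)) (fun a b b' h h' => hH.mat _ _ _ _ _ h h')
      (fun a a' b h h' => hH.mat _ _ _ _ _ h.symm h'.symm)
  choose q hq using hqex
  obtain ⟨W, hW⟩ : ∃ W : Finset V, W = ((T.filter (fun w => G.Adj t w)).erase u1).erase u2 := ⟨_, rfl⟩
  have hWc : W.card ≤ 2 := by
    have h5 : u1 ∈ T.filter (fun w => G.Adj t w) := Finset.mem_filter.mpr ⟨h1, a1⟩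
    have h6 : u2 ∈ (T.filter (fun w => G.Adj t w)).erase u1 :=
      Finset.mem_erase.mpr ⟨h12.symm, Finset.mem_filter.mpr ⟨h2, a2⟩⟩
    rw [hW, Finset.card_erase_of_mem h6, Finset.card_erase_of_mem h5]
    unfold dg at h4
    omega
  obtain ⟨z3, z4, hz34⟩ : ∃ z3 z4 : V, ∀ z ∈ W, z = z3 ∨ z = z4 := by
    rcases W.eq_empty_or_nonempty with h | ⟨z3, hz3⟩
    · refine ⟨u1, u1, fun z hz => ?_⟩
      rw [h] at hz
      exact absurd hz (Finset.notMem_empty z)
    · rcases (W.erase z3).eq_empty_or_nonempty with h | ⟨z4, hz4⟩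
      · refine ⟨z3, z3, fun z hz => ?_⟩
        by_contra hne
        push Not at hne
        have h7 : z ∈ W.erase z3 := Finset.mem_erase.mpr ⟨hne.1, hz⟩
        rw [h] at h7
        exact absurd h7 (Finset.notMem_empty z)
      · refine ⟨z3, z4, fun z hz => ?_⟩
        by_cases hne : z = z3
        · exact Or.inl hne
        · right
          have h7 : (W.erase z3).card ≤ 1 := by
            rw [Finset.card_erase_of_mem hz3]
            omega
          exact Finset.card_le_one.mp h7 z (Finset.mem_erase.mpr ⟨hne, hz⟩) z4 hz4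
  refine step hH hdeg ht h1 h2 h12 a1 a2 hf ((f z3).trans (q z3).symm) ((f z4).trans (q z4).symm) ?_
  intro i c z hz hzt hz1 hz2 hadj
  have hG : G.Adj t z := hH.edge _ _ _ _ hadj
  have hzW : z ∈ W := by
    rw [hW]
    exact Finset.mem_erase.mpr ⟨hz2, Finset.mem_erase.mpr ⟨hz1, Finset.mem_filter.mpr ⟨hz, hG⟩⟩⟩
  have hqz : q z c = f z i := hq z c (f z i) hadj
  rcases hz34 z hzW with h | h
  · left
    rw [← h, Equiv.trans_apply, ← hqz, Equiv.symm_apply_apply]
  · right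
    rw [← h, Equiv.trans_apply, ← hqz, Equiv.symm_apply_apply]

end Pool.Agent.MP_dc7d7b.TG
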