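import Pool.Agent.Lib.MP_dc7d7b_co.TG.LT

set_option autoImplicit false

/-!
XA (200 lines). `lat` for M gives R, C, for M' gives R', C' (A = P1 resp. P2, B = P3, D = P4). P3 maps R onto C and R' onto C'
(injective, same card), so it maps X = R ∩ R' onto Y = C ∩ C' ; the same for P4. card X ≥ 2 (4 + 4 - 6).
P2 agrees with M on at least 3 of the 4 rows of R: (r, P2 r) ∈ M for them (hit M P2 ≥ 3; all cells of M have their row in R).
For r ∈ X: P3 r ≠ P4 r in Y; for r ∈ R: C = {P1 r, P3 r, P4 r, c} with c the cell of M.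
card X = 2: then Y = {P3 r, P4 r} for r ∈ X. At least one r ∈ X has (r, P2 r) ∈ M: P2 r ∈ C; P2 r ∈ C' (r ∈ R'); so P2 r ∈ Y, but
P2 r ≠ P3 r, P4 r. Contradiction. card X = 3: at least two rows r ∈ X have (r, P2 r) ∈ M; for each of them P2 r ∈ Y = {P2 r, P3 r, P4 r}
(card Y = 3), P1 r ≠ P2 r (the cell of M is not P1 r), P1 r ≠ P3 r, P4 r, so P1 r ∈ C \ Y, which has one element; two rows with the
same P1 r: contradiction. So card X = 4, R = R' and C = C' (both are the image of R under P3).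
Now for r ∈ R: C = {P1 r, P3 r, P4 r, c}, (r, c) ∈ M and C = {P2 r, P3 r, P4 r, c'}, (r, c') ∈ M'. P2 and r ↦ c are injective from R to C and
agree on 3 rows, so on all 4: c = P2 r for all r ∈ R. Hence {P1 r, P2 r} = C \ {P3 r, P4 r} = {P2 r, c'} and c' = P1 r: (r, P1 r) ∈ M'.
-/

namespace Pool.Agent.MP_dc7d7b.TG

open Finset

private theorem xa_three {C : Finset (Fin 6)} (h : C.card = 3) {a b d : Fin 6} (ha : a ∈ C) (hb : b ∈ C)
    (hd : d ∈ C) (hab : a ≠ b) (had : a ≠ d) (hbd : b ≠ d) {c : Fin 6} (hc : c ∈ C) : c = a ∨ c = b ∨ c = d := by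
  have h1 : ({a, b, d} : Finset (Fin 6)) ⊆ C := by
    intro x hx
    simp only [mem_insert, mem_singleton] at hx
    rcases hx with rfl | rfl | rfl <;> assumption
  have h2 : ({a, b, d} : Finset (Fin 6)).card = 3 := card_eq_three.2 ⟨a, b, d, hab, had, hbd, rfl⟩
  have h3 := eq_of_subset_of_card_le h1 (by omega)
  rw [← h3] at hc
  simpa using hc

private theorem xa_four {C : Finset (Fin 6)} (h : C.card = 4) {a b d e : Fin 6} (ha : a ∈ C) (hb : b ∈ C)
    (hd : d ∈ C) (he : e ∈ C) (hab : a ≠ b) (had : a ≠ d) (hae : a ≠ e) (hbd : b ≠ d) (hbe : b ≠ e) (hde : d ≠ e)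
    {c : Fin 6} (hc : c ∈ C) : c = a ∨ c = b ∨ c = d ∨ c = e := by
  by_cases hca : c = a
  · exact Or.inl hca
  · right
    refine xa_three (C := C.erase a) (by rw [card_erase_of_mem ha]; omega) (mem_erase.2 ⟨hab.symm, hb⟩)
      (mem_erase.2 ⟨had.symm, hd⟩) (mem_erase.2 ⟨hae.symm, he⟩) hbd hbe hde (mem_erase.2 ⟨hca, hc⟩)

private theorem xa_img {P : Equiv.Perm (Fin 6)} {R C : Finset (Fin 6)} (hR : R.card = 4) (hC : C.card = 4)
    (h : ∀ r ∈ R, P r ∈ C) : R.image P = C := by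
  refine eq_of_subset_of_card_le ?_ ?_
  · intro x hx
    obtain ⟨r, hr, rfl⟩ := mem_image.1 hx
    exact h r hr
  · rw [card_image_of_injective R P.injective]
    omega

theorem same {P1 P2 P3 P4 : Equiv.Perm (Fin 6)} {M M' : Finset (Fin 6 × Fin 6)} (hM : Mat M)
    (h1 : Full (co P1 P3 P4) M) (h1h : 3 ≤ hit M P2) (hM' : Mat M') (h2 : Full (co P2 P3 P4) M') :
    ∃ R C : Finset (Fin 6), R.card = 4 ∧ C.card = 4 ∧ (∀ x ∈ M', x.1 ∈ R) ∧
      ∀ r ∈ R, P3 r ∈ C ∧ P4 r ∈ C ∧ P1 r ∈ C ∧ (r, P1 r) ∈ M' := by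
  obtain ⟨R, C, hR, hC, hMR, hA, hcc⟩ := lat hM h1
  obtain ⟨R', C', hR', hC', hMR', hA', hcc'⟩ := lat hM' h2
  -- rows in which `P2` uses a cell of `M`
  have hG2 : ∀ r ∈ R, (r, P2 r) ∈ M → P2 r ∈ C ∧ P2 r ≠ P1 r ∧ P2 r ≠ P3 r ∧ P2 r ≠ P4 r := by
    intro r hr hm
    obtain ⟨c, -, hcM, hc1, hc3, hc4⟩ := hcc r hr
    have hcP : c = P2 r := by
      by_contra hne
      exact (hM (r, c) hcM (r, P2 r) hm (fun h => hne (Prod.mk.inj h).2)).1 rfl
    rw [hcP] at hc1 hc3 hc4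
    exact ⟨(hMR _ hm).2, hc1, hc3, hc4⟩
  obtain ⟨G, hG⟩ : ∃ G : Finset (Fin 6), G = R.filter (fun r => (r, P2 r) ∈ M) := ⟨_, rfl⟩
  have hmG : ∀ r, r ∈ G ↔ r ∈ R ∧ (r, P2 r) ∈ M := fun r => by rw [hG, mem_filter]
  have hGR : G ⊆ R := fun r hr => ((hmG r).1 hr).1
  have hG3 : 3 ≤ G.card := by
    refine h1h.trans ?_
    unfold hit
    refine card_le_card_of_injOn Prod.fst ?_ ?_
    · intro x hx
      have hx' := mem_filter.1 (mem_coe.1 hx)
      refine mem_coe.2 ((hmG _).2 ⟨(hMR x hx'.1).1, ?_⟩)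
      have h3 : (x.1, P2 x.1) = x := Prod.ext rfl hx'.2
      rw [h3]
      exact hx'.1
    · intro x hx y hy hxy
      have hx' := mem_filter.1 (mem_coe.1 hx)
      have hy' := mem_filter.1 (mem_coe.1 hy)
      refine Prod.ext hxy ?_
      rw [← hx'.2, ← hy'.2]
      exact congrArg P2 hxy
  -- images
  have hI3 : R.image P3 = C := xa_img hR hC fun r hr => (hA r hr).2.1
  have hI3' : R'.image P3 = C' := xa_img hR' hC' fun r hr => (hA' r hr).2.1
  have hI2' : R'.image P2 = C' := xa_img hR' hC' fun r hr => (hA' r hr).1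
  have hY : (R ∩ R').image P3 = C ∩ C' := by
    rw [image_inter _ _ P3.injective, hI3, hI3']
  have hYc : (C ∩ C').card = (R ∩ R').card := by
    rw [← hY, card_image_of_injective _ P3.injective]
  have hX1 := card_union_add_card_inter R R'
  have hX2 : (R ∪ R').card ≤ 6 := by
    have := card_le_univ (R ∪ R')
    rwa [Fintype.card_fin] at this
  have hX3 : (R ∩ R').card ≤ 4 := by
    have := card_le_card (inter_subset_left : R ∩ R' ⊆ R)
    omega
  have hXG1 := card_union_add_card_inter (R ∩ R') G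
  have hXG2 : ((R ∩ R') ∪ G).card ≤ 4 := by
    rw [← hR]
    exact card_le_card (union_subset inter_subset_left hGR)
  -- the values on the common rows
  have hin : ∀ r ∈ (R ∩ R') ∩ G, P2 r ∈ C ∩ C' ∧ P3 r ∈ C ∩ C' ∧ P4 r ∈ C ∩ C' ∧ P2 r ≠ P3 r ∧ P2 r ≠ P4 r ∧
      P3 r ≠ P4 r ∧ P1 r ∈ C ∧ P1 r ≠ P2 r ∧ P1 r ≠ P3 r ∧ P1 r ≠ P4 r := by
    intro r hr
    obtain ⟨hr1, hrG⟩ := mem_inter.1 hr
    obtain ⟨hrR, hrR'⟩ := mem_inter.1 hr1
    obtain ⟨k1, k2, k3, k4⟩ := hG2 r hrR ((hmG r).1 hrG).2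
    obtain ⟨a1, a2, a3, a4, a5, a6⟩ := hA r hrR
    obtain ⟨b1, b2, b3, b4, b5, b6⟩ := hA' r hrR'
    exact ⟨mem_inter.2 ⟨k1, b1⟩, mem_inter.2 ⟨a2, b2⟩, mem_inter.2 ⟨a3, b3⟩, k3, k4, a6, a1, k2.symm, a4, a5⟩
  have hX4 : 3 ≤ (R ∩ R').card := by
    obtain ⟨r, hr⟩ : ((R ∩ R') ∩ G).Nonempty := card_pos.1 (by omega)
    obtain ⟨k1, k2, k3, k4, k5, k6, -⟩ := hin r hr
    rw [← hYc, ← card_eq_three.2 ⟨P2 r, P3 r, P4 r, k4, k5, k6, rfl⟩]
    refine card_le_card ?_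
    intro x hx
    simp only [mem_insert, mem_singleton] at hx
    rcases hx with rfl | rfl | rfl <;> assumption
  have hX5 : (R ∩ R').card ≠ 3 := by
    intro h3
    have h4 : 1 < ((R ∩ R') ∩ G).card := by omega
    obtain ⟨r, hr, r', hr', hne⟩ := one_lt_card.1 h4
    have h5 : ∀ r ∈ (R ∩ R') ∩ G, P1 r ∈ C \ (C ∩ C') := by
      intro r hr
      obtain ⟨k1, k2, k3, k4, k5, k6, k7, k8, k9, k10⟩ := hin r hr
      refine mem_sdiff.2 ⟨k7, fun h6 => ?_⟩
      rcases xa_three (by omega) k1 k2 k3 k4 k5 k6 h6 with h | h | h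
      · exact k8 h
      · exact k9 h
      · exact k10 h
    have h6 : (C \ (C ∩ C')).card ≤ 1 := by
      rw [card_sdiff_of_subset inter_subset_left]
      omega
    exact hne (P1.injective (card_le_one.1 h6 _ (h5 r hr) _ (h5 r' hr')))
  have hXR : R ∩ R' = R := eq_of_subset_of_card_le inter_subset_left (by omega)
  have hRR : R = R' := eq_of_subset_of_card_le (inter_eq_left.1 hXR) (by omega)
  subst hRR
  have hCC : C = C' := by rw [← hI3, ← hI3']
  subst hCC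
  -- all rows are in `G`
  have hall : ∀ r ∈ R, (r, P2 r) ∈ M := by
    intro r0 hr0
    by_contra hcon
    have hr0G : r0 ∉ G := fun h => hcon ((hmG r0).1 h).2
    obtain ⟨c, hcC, hcM, -⟩ := hcc r0 hr0
    have hne : c ≠ P2 r0 := by
      rintro rfl
      exact hcon hcM
    have h3 : (C \ G.image P2).card ≤ 1 := by
      have h4 : G.image P2 ⊆ C := by
        intro x hx
        obtain ⟨r, hr, rfl⟩ := mem_image.1 hx
        exact (hA' r (hGR hr)).1
      rw [card_sdiff_of_subset h4, card_image_of_injective _ P2.injective]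
      omega
    refine hne (card_le_one.1 h3 _ (mem_sdiff.2 ⟨hcC, fun h => ?_⟩) _ (mem_sdiff.2 ⟨(hA' r0 hr0).1, fun h => ?_⟩))
    · obtain ⟨r, hr, hrc⟩ := mem_image.1 h
      have h4 : (r, P2 r) ∈ M := ((hmG r).1 hr).2
      have h5 : r ≠ r0 := by
        rintro rfl
        exact hr0G hr
      exact (hM (r, P2 r) h4 (r0, c) hcM (fun h => h5 (Prod.mk.inj h).1)).2 hrc
    · obtain ⟨r, hr, hrc⟩ := mem_image.1 h
      rw [P2.injective hrc] at hr
      exact hr0G hr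
  refine ⟨R, C, hR, hC, fun x hx => (hMR' x hx).1, fun r hr => ?_⟩
  obtain ⟨a1, a2, a3, a4, a5, a6⟩ := hA r hr
  obtain ⟨k1, k2, k3, k4⟩ := hG2 r hr (hall r hr)
  obtain ⟨c, hcC, hcM, hc2, hc3, hc4⟩ := hcc' r hr
  refine ⟨a2, a3, a1, ?_⟩
  rcases xa_four hC a1 a2 a3 k1 a4 a5 k2.symm a6 k3.symm k4.symm hcC with h | h | h | h
  · rw [← h]
    exact hcM
  · exact absurd h hc3
  · exact absurd h hc4
  · exact absurd h hc2

end Pool.Agent.MP_dc7d7b.TG
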